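import Pool.Agent.Q82.CL.Defs

/-!
# A weak combinatorial type of four lines and four conics: the curve
-/

set_option autoImplicit false
set_option linter.all false

open MvPolynomial

namespace Pool.Agent.Q82.CL

lemma I_sq1 : Complex.I ^ 2 + 1 = 0 := by rw [Complex.I_sq]; ring

/-- The linear form with given coefficients. -/
noncomputable def linForm (a b c : ℂ) : MvPolynomial (Fin 3) ℂ := C a * X 0 + C b * X 1 + C c * X 2

/-- The quadratic form with given coefficients. -/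
noncomputable def quadForm (a b c d e f : ℂ) : MvPolynomial (Fin 3) ℂ :=
  C a * X 0 ^ 2 + C b * (X 0 * X 1) + C c * (X 0 * X 2) + C d * X 1 ^ 2 + C e * (X 1 * X 2) +
    C f * X 2 ^ 2

/-- The eight components. -/
noncomputable def comps : Fin 8 → MvPolynomial (Fin 3) ℂ :=
  ![linForm (((1))) (0) (0),
    linForm (0) (((1))) (0),
    linForm (0) (0) (((1))),
    linForm (((-1))) (((-1))) (((-1))),
    quadForm (0) (((-4) * Complex.I + (3))) (((4) * Complex.I + (3))) (((-4) * Complex.I + (3))) (((10))) (((4) * Complex.I + (3))),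
    quadForm (((-2) * Complex.I)) (((-2) * Complex.I)) (((-6) * Complex.I + (-2))) (0) (((-4) * Complex.I + (-3))) (((-4) * Complex.I + (-3))),
    quadForm (((-2))) (((-2) * Complex.I + (-6))) (((-2))) (((-3) * Complex.I + (-4))) (((-3) * Complex.I + (-4))) (0),
    quadForm (0) (((1))) (((1))) (0) (((4))) (0)]

/-- The tacnodes. -/
noncomputable def tpt : Fin 4 → Fin 3 → ℂ :=
  ![![0, ((-4) * Complex.I + (-3)), ((5))],
    ![((1) * Complex.I + (-3)), 0, ((2))],
    ![((-1) * Complex.I + (-3)), ((2)), 0],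
    ![((-2)), ((1)), ((1))]]

/-- The quadruple points. -/
noncomputable def qpt : Fin 9 → Fin 3 → ℂ :=
  ![![((1)), ((-1)), 0],
    ![((-5) * Complex.I + (5)), ((2) * Complex.I + (-1)), ((-5))],
    ![((-5) * Complex.I + (5)), ((5) * Complex.I), ((1) * Complex.I + (-2))],
    ![((-5) * Complex.I + (5)), ((1) * Complex.I + (-3)), ((3) * Complex.I + (-1))],
    ![0, 0, ((1))],
    ![((1)), 0, 0],
    ![((-1)), 0, ((1))],
    ![0, ((1)), 0],
    ![0, ((1)), ((-1))]]

lemma same_vec {x y z : ℂ} (hv : (![x, y, z] : Fin 3 → ℂ) ≠ 0) (a b c : ℂ) {w : Fin 3 → ℂ}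
    (hw : w = ![a, b, c]) (hne : ¬ (a = 0 ∧ b = 0 ∧ c = 0)) (h0 : y * c = z * b)
    (h1 : z * a = x * c) (h2 : x * b = y * a) : SamePoint ![x, y, z] w := by
  subst hw
  have hv' : ¬ (x = 0 ∧ y = 0 ∧ z = 0) := by
    rintro ⟨rfl, rfl, rfl⟩
    apply hv
    ext i
    fin_cases i <;> rfl
  by_cases ha : a = 0
  · subst ha
    by_cases hb : b = 0
    · subst hb
      have hc : c ≠ 0 := fun h => hne ⟨rfl, rfl, h⟩
      have hx : x = 0 := by
        have : x * c = 0 := by rw [← h1]; ring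
        exact (mul_eq_zero.1 this).resolve_right hc
      have hy : y = 0 := by
        have : y * c = 0 := by rw [h0]; ring
        exact (mul_eq_zero.1 this).resolve_right hc
      have hz : z ≠ 0 := fun h => hv' ⟨hx, hy, h⟩
      refine ⟨z / c, div_ne_zero hz hc, ?_⟩
      ext i
      fin_cases i
      · simp [hx]
      · simp [hy]
      · simp [div_mul_cancel₀ _ hc]
    · have hx : x = 0 := by
        have : x * b = 0 := by rw [h2]; ring
        exact (mul_eq_zero.1 this).resolve_right hb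
      have hy : y ≠ 0 := by
        intro hy
        apply hv'
        refine ⟨hx, hy, ?_⟩
        have : z * b = 0 := by rw [← h0, hy]; ring
        exact (mul_eq_zero.1 this).resolve_right hb
      refine ⟨y / b, div_ne_zero hy hb, ?_⟩
      ext i
      fin_cases i
      · simp [hx]
      · simp [div_mul_cancel₀ _ hb]
      · simp only [Matrix.smul_cons, smul_eq_mul, Matrix.cons_val]
        show z = y / b * c
        field_simp
        linear_combination -h0
  · have hx : x ≠ 0 := by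
      intro hx
      apply hv'
      subst hx
      refine ⟨rfl, ?_, ?_⟩
      · have : y * a = 0 := by rw [← h2]; ring
        exact (mul_eq_zero.1 this).resolve_right ha
      · have : z * a = 0 := by rw [h1]; ring
        exact (mul_eq_zero.1 this).resolve_right ha
    refine ⟨x / a, div_ne_zero hx ha, ?_⟩
    ext i
    fin_cases i
    · simp [div_mul_cancel₀ _ ha]
    · show y = x / a * b
      field_simp
      linear_combination -h2
    · show z = x / a * c
      field_simp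
      linear_combination h1


lemma pair_0_1 {x y z : ℂ} (hv : (![x, y, z] : Fin 3 → ℂ) ≠ 0) (h1 : ((1) * x) = 0) (h2 : ((1) * y) = 0) :
    (∃ i, SamePoint ![x, y, z] (tpt i)) ∨ ∃ j, SamePoint ![x, y, z] (qpt j) := by
  exact Or.inr ⟨4, same_vec (hv := hv) (0) (0) (((1))) rfl (by intro h; norm_num [Complex.ext_iff] at h) (by linear_combination 0 * h1 + ((1)) * h2 + 0 * I_sq1) (by linear_combination ((-1)) * h1 + 0 * h2 + 0 * I_sq1) (by linear_combination 0 * h1 + 0 * h2 + 0 * I_sq1)⟩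

lemma pair_0_2 {x y z : ℂ} (hv : (![x, y, z] : Fin 3 → ℂ) ≠ 0) (h1 : ((1) * x) = 0) (h2 : ((1) * z) = 0) :
    (∃ i, SamePoint ![x, y, z] (tpt i)) ∨ ∃ j, SamePoint ![x, y, z] (qpt j) := by
  exact Or.inr ⟨7, same_vec (hv := hv) (0) (((1))) (0) rfl (by intro h; norm_num [Complex.ext_iff] at h) (by linear_combination 0 * h1 + ((-1)) * h2 + 0 * I_sq1) (by linear_combination 0 * h1 + 0 * h2 + 0 * I_sq1) (by linear_combination ((1)) * h1 + 0 * h2 + 0 * I_sq1)⟩

lemma pair_0_3 {x y z : ℂ} (hv : (![x, y, z] : Fin 3 → ℂ) ≠ 0) (h1 : ((1) * x) = 0) (h2 : ((-1) * x + (-1) * y + (-1) * z) = 0) :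
    (∃ i, SamePoint ![x, y, z] (tpt i)) ∨ ∃ j, SamePoint ![x, y, z] (qpt j) := by
  exact Or.inr ⟨8, same_vec (hv := hv) (0) (((1))) (((-1))) rfl (by intro h; norm_num [Complex.ext_iff] at h) (by linear_combination ((1)) * h1 + ((1)) * h2 + 0 * I_sq1) (by linear_combination ((1)) * h1 + 0 * h2 + 0 * I_sq1) (by linear_combination ((1)) * h1 + 0 * h2 + 0 * I_sq1)⟩

lemma pair_0_4 {x y z : ℂ} (hv : (![x, y, z] : Fin 3 → ℂ) ≠ 0) (h1 : ((1) * x) = 0) (h2 : ((-4) * Complex.I * x * y + (4) * Complex.I * x * z + (-4) * Complex.I * y ^ 2 + (4) * Complex.I * z ^ 2 + (3) * x * y + (3) * x * z + (3) * y ^ 2 + (10) * y * z + (3) * z ^ 2) = 0) :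
    (∃ i, SamePoint ![x, y, z] (tpt i)) ∨ ∃ j, SamePoint ![x, y, z] (qpt j) := by
  have h3 : ((4) * Complex.I * z + (5) * y + (3) * z) * ((4) * Complex.I * z + (5) * y + (3) * z) = 0 := by
    linear_combination ((-24) * Complex.I * z + (-25) * y + (7) * z) * h1 + ((4) * Complex.I + (3)) * h2 + ((16) * x * y + (-16) * x * z + (16) * y ^ 2) * I_sq1
  rcases mul_eq_zero.1 h3 with h | h
  · exact Or.inl ⟨0, same_vec (hv := hv) (0) (((-4) * Complex.I + (-3))) (((5))) rfl (by intro h; norm_num [Complex.ext_iff] at h) (by linear_combination 0 * h1 + ((1)) * h + 0 * I_sq1) (by linear_combination ((-5)) * h1 + 0 * h + 0 * I_sq1) (by linear_combination ((-4) * Complex.I + (-3)) * h1 + 0 * h + 0 * I_sq1)⟩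
  · exact Or.inl ⟨0, same_vec (hv := hv) (0) (((-4) * Complex.I + (-3))) (((5))) rfl (by intro h; norm_num [Complex.ext_iff] at h) (by linear_combination 0 * h1 + ((1)) * h + 0 * I_sq1) (by linear_combination ((-5)) * h1 + 0 * h + 0 * I_sq1) (by linear_combination ((-4) * Complex.I + (-3)) * h1 + 0 * h + 0 * I_sq1)⟩

lemma pair_0_5 {x y z : ℂ} (hv : (![x, y, z] : Fin 3 → ℂ) ≠ 0) (h1 : ((1) * x) = 0) (h2 : ((-2) * Complex.I * x ^ 2 + (-2) * Complex.I * x * y + (-6) * Complex.I * x * z + (-4) * Complex.I * y * z + (-4) * Complex.I * z ^ 2 + (-2) * x * z + (-3) * y * z + (-3) * z ^ 2) = 0) :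
    (∃ i, SamePoint ![x, y, z] (tpt i)) ∨ ∃ j, SamePoint ![x, y, z] (qpt j) := by
  have h3 : ((-1) * z) * ((-1) * y + (-1) * z) = 0 := by
    linear_combination ((-6 / 25) * Complex.I * x + (-6 / 25) * Complex.I * y + (-2 / 5) * Complex.I * z + (-8 / 25) * x + (-8 / 25) * y + (-6 / 5) * z) * h1 + ((4 / 25) * Complex.I + (-3 / 25)) * h2 + ((8 / 25) * x ^ 2 + (8 / 25) * x * y + (24 / 25) * x * z + (16 / 25) * y * z + (16 / 25) * z ^ 2) * I_sq1
  rcases mul_eq_zero.1 h3 with h | h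
  · exact Or.inr ⟨7, same_vec (hv := hv) (0) (((1))) (0) rfl (by intro h; norm_num [Complex.ext_iff] at h) (by linear_combination 0 * h1 + ((1)) * h + 0 * I_sq1) (by linear_combination 0 * h1 + 0 * h + 0 * I_sq1) (by linear_combination ((1)) * h1 + 0 * h + 0 * I_sq1)⟩
  · exact Or.inr ⟨8, same_vec (hv := hv) (0) (((1))) (((-1))) rfl (by intro h; norm_num [Complex.ext_iff] at h) (by linear_combination 0 * h1 + ((1)) * h + 0 * I_sq1) (by linear_combination ((1)) * h1 + 0 * h + 0 * I_sq1) (by linear_combination ((1)) * h1 + 0 * h + 0 * I_sq1)⟩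

lemma pair_0_6 {x y z : ℂ} (hv : (![x, y, z] : Fin 3 → ℂ) ≠ 0) (h1 : ((1) * x) = 0) (h2 : ((-2) * Complex.I * x * y + (-3) * Complex.I * y ^ 2 + (-3) * Complex.I * y * z + (-2) * x ^ 2 + (-6) * x * y + (-2) * x * z + (-4) * y ^ 2 + (-4) * y * z) = 0) :
    (∃ i, SamePoint ![x, y, z] (tpt i)) ∨ ∃ j, SamePoint ![x, y, z] (qpt j) := by
  have h3 : ((1) * y) * ((-1) * y + (-1) * z) = 0 := by
    linear_combination ((-6 / 25) * Complex.I * x + (-2 / 5) * Complex.I * y + (-6 / 25) * Complex.I * z + (8 / 25) * x + (6 / 5) * y + (8 / 25) * z) * h1 + ((-3 / 25) * Complex.I + (4 / 25)) * h2 + ((-6 / 25) * x * y + (-9 / 25) * y ^ 2 + (-9 / 25) * y * z) * I_sq1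
  rcases mul_eq_zero.1 h3 with h | h
  · exact Or.inr ⟨4, same_vec (hv := hv) (0) (0) (((1))) rfl (by intro h; norm_num [Complex.ext_iff] at h) (by linear_combination 0 * h1 + ((1)) * h + 0 * I_sq1) (by linear_combination ((-1)) * h1 + 0 * h + 0 * I_sq1) (by linear_combination 0 * h1 + 0 * h + 0 * I_sq1)⟩
  · exact Or.inr ⟨8, same_vec (hv := hv) (0) (((1))) (((-1))) rfl (by intro h; norm_num [Complex.ext_iff] at h) (by linear_combination 0 * h1 + ((1)) * h + 0 * I_sq1) (by linear_combination ((1)) * h1 + 0 * h + 0 * I_sq1) (by linear_combination ((1)) * h1 + 0 * h + 0 * I_sq1)⟩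

lemma pair_0_7 {x y z : ℂ} (hv : (![x, y, z] : Fin 3 → ℂ) ≠ 0) (h1 : ((1) * x) = 0) (h2 : ((1) * x * y + (1) * x * z + (4) * y * z) = 0) :
    (∃ i, SamePoint ![x, y, z] (tpt i)) ∨ ∃ j, SamePoint ![x, y, z] (qpt j) := by
  have h3 : ((1) * y) * ((-1) * z) = 0 := by
    linear_combination ((1 / 4) * y + (1 / 4) * z) * h1 + ((-1 / 4)) * h2 + 0 * I_sq1
  rcases mul_eq_zero.1 h3 with h | h
  · exact Or.inr ⟨4, same_vec (hv := hv) (0) (0) (((1))) rfl (by intro h; norm_num [Complex.ext_iff] at h) (by linear_combination 0 * h1 + ((1)) * h + 0 * I_sq1) (by linear_combination ((-1)) * h1 + 0 * h + 0 * I_sq1) (by linear_combination 0 * h1 + 0 * h + 0 * I_sq1)⟩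
  · exact Or.inr ⟨7, same_vec (hv := hv) (0) (((1))) (0) rfl (by intro h; norm_num [Complex.ext_iff] at h) (by linear_combination 0 * h1 + ((1)) * h + 0 * I_sq1) (by linear_combination 0 * h1 + 0 * h + 0 * I_sq1) (by linear_combination ((1)) * h1 + 0 * h + 0 * I_sq1)⟩

lemma pair_1_2 {x y z : ℂ} (hv : (![x, y, z] : Fin 3 → ℂ) ≠ 0) (h1 : ((1) * y) = 0) (h2 : ((1) * z) = 0) :
    (∃ i, SamePoint ![x, y, z] (tpt i)) ∨ ∃ j, SamePoint ![x, y, z] (qpt j) := by
  exact Or.inr ⟨5, same_vec (hv := hv) (((1))) (0) (0) rfl (by intro h; norm_num [Complex.ext_iff] at h) (by linear_combination 0 * h1 + 0 * h2 + 0 * I_sq1) (by linear_combination 0 * h1 + ((1)) * h2 + 0 * I_sq1) (by linear_combination ((-1)) * h1 + 0 * h2 + 0 * I_sq1)⟩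

lemma pair_1_3 {x y z : ℂ} (hv : (![x, y, z] : Fin 3 → ℂ) ≠ 0) (h1 : ((1) * y) = 0) (h2 : ((-1) * x + (-1) * y + (-1) * z) = 0) :
    (∃ i, SamePoint ![x, y, z] (tpt i)) ∨ ∃ j, SamePoint ![x, y, z] (qpt j) := by
  exact Or.inr ⟨6, same_vec (hv := hv) (((-1))) (0) (((1))) rfl (by intro h; norm_num [Complex.ext_iff] at h) (by linear_combination ((1)) * h1 + 0 * h2 + 0 * I_sq1) (by linear_combination ((1)) * h1 + ((1)) * h2 + 0 * I_sq1) (by linear_combination ((1)) * h1 + 0 * h2 + 0 * I_sq1)⟩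

lemma pair_1_4 {x y z : ℂ} (hv : (![x, y, z] : Fin 3 → ℂ) ≠ 0) (h1 : ((1) * y) = 0) (h2 : ((-4) * Complex.I * x * y + (4) * Complex.I * x * z + (-4) * Complex.I * y ^ 2 + (4) * Complex.I * z ^ 2 + (3) * x * y + (3) * x * z + (3) * y ^ 2 + (10) * y * z + (3) * z ^ 2) = 0) :
    (∃ i, SamePoint ![x, y, z] (tpt i)) ∨ ∃ j, SamePoint ![x, y, z] (qpt j) := by
  have h3 : ((-1) * z) * ((1) * x + (1) * z) = 0 := by
    linear_combination ((-24 / 25) * Complex.I * x + (-24 / 25) * Complex.I * y + (-8 / 5) * Complex.I * z + (-7 / 25) * x + (-7 / 25) * y + (6 / 5) * z) * h1 + ((4 / 25) * Complex.I + (-3 / 25)) * h2 + ((16 / 25) * x * y + (-16 / 25) * x * z + (16 / 25) * y ^ 2 + (-16 / 25) * z ^ 2) * I_sq1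
  rcases mul_eq_zero.1 h3 with h | h
  · exact Or.inr ⟨5, same_vec (hv := hv) (((1))) (0) (0) rfl (by intro h; norm_num [Complex.ext_iff] at h) (by linear_combination 0 * h1 + 0 * h + 0 * I_sq1) (by linear_combination 0 * h1 + ((-1)) * h + 0 * I_sq1) (by linear_combination ((-1)) * h1 + 0 * h + 0 * I_sq1)⟩
  · exact Or.inr ⟨6, same_vec (hv := hv) (((-1))) (0) (((1))) rfl (by intro h; norm_num [Complex.ext_iff] at h) (by linear_combination ((1)) * h1 + 0 * h + 0 * I_sq1) (by linear_combination 0 * h1 + ((-1)) * h + 0 * I_sq1) (by linear_combination ((1)) * h1 + 0 * h + 0 * I_sq1)⟩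

lemma pair_1_5 {x y z : ℂ} (hv : (![x, y, z] : Fin 3 → ℂ) ≠ 0) (h1 : ((1) * y) = 0) (h2 : ((-2) * Complex.I * x ^ 2 + (-2) * Complex.I * x * y + (-6) * Complex.I * x * z + (-4) * Complex.I * y * z + (-4) * Complex.I * z ^ 2 + (-2) * x * z + (-3) * y * z + (-3) * z ^ 2) = 0) :
    (∃ i, SamePoint ![x, y, z] (tpt i)) ∨ ∃ j, SamePoint ![x, y, z] (qpt j) := by
  have h3 : ((-1) * Complex.I * z + (2) * x + (3) * z) * ((-1) * Complex.I * z + (2) * x + (3) * z) = 0 := by
    linear_combination ((6) * Complex.I * z + (-4) * x + (-8) * z) * h1 + ((2) * Complex.I) * h2 + ((4) * x ^ 2 + (4) * x * y + (12) * x * z + (8) * y * z + (9) * z ^ 2) * I_sq1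
  rcases mul_eq_zero.1 h3 with h | h
  · exact Or.inl ⟨1, same_vec (hv := hv) (((1) * Complex.I + (-3))) (0) (((2))) rfl (by intro h; norm_num [Complex.ext_iff] at h) (by linear_combination ((2)) * h1 + 0 * h + 0 * I_sq1) (by linear_combination 0 * h1 + ((-1)) * h + 0 * I_sq1) (by linear_combination ((-1) * Complex.I + (3)) * h1 + 0 * h + 0 * I_sq1)⟩
  · exact Or.inl ⟨1, same_vec (hv := hv) (((1) * Complex.I + (-3))) (0) (((2))) rfl (by intro h; norm_num [Complex.ext_iff] at h) (by linear_combination ((2)) * h1 + 0 * h + 0 * I_sq1) (by linear_combination 0 * h1 + ((-1)) * h + 0 * I_sq1) (by linear_combination ((-1) * Complex.I + (3)) * h1 + 0 * h + 0 * I_sq1)⟩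

lemma pair_1_6 {x y z : ℂ} (hv : (![x, y, z] : Fin 3 → ℂ) ≠ 0) (h1 : ((1) * y) = 0) (h2 : ((-2) * Complex.I * x * y + (-3) * Complex.I * y ^ 2 + (-3) * Complex.I * y * z + (-2) * x ^ 2 + (-6) * x * y + (-2) * x * z + (-4) * y ^ 2 + (-4) * y * z) = 0) :
    (∃ i, SamePoint ![x, y, z] (tpt i)) ∨ ∃ j, SamePoint ![x, y, z] (qpt j) := by
  have h3 : ((1) * x) * ((1) * x + (1) * z) = 0 := by
    linear_combination ((-1) * Complex.I * x + (-3 / 2) * Complex.I * y + (-3 / 2) * Complex.I * z + (-3) * x + (-2) * y + (-2) * z) * h1 + ((-1 / 2)) * h2 + 0 * I_sq1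
  rcases mul_eq_zero.1 h3 with h | h
  · exact Or.inr ⟨4, same_vec (hv := hv) (0) (0) (((1))) rfl (by intro h; norm_num [Complex.ext_iff] at h) (by linear_combination ((1)) * h1 + 0 * h + 0 * I_sq1) (by linear_combination 0 * h1 + ((-1)) * h + 0 * I_sq1) (by linear_combination 0 * h1 + 0 * h + 0 * I_sq1)⟩
  · exact Or.inr ⟨6, same_vec (hv := hv) (((-1))) (0) (((1))) rfl (by intro h; norm_num [Complex.ext_iff] at h) (by linear_combination ((1)) * h1 + 0 * h + 0 * I_sq1) (by linear_combination 0 * h1 + ((-1)) * h + 0 * I_sq1) (by linear_combination ((1)) * h1 + 0 * h + 0 * I_sq1)⟩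

lemma pair_1_7 {x y z : ℂ} (hv : (![x, y, z] : Fin 3 → ℂ) ≠ 0) (h1 : ((1) * y) = 0) (h2 : ((1) * x * y + (1) * x * z + (4) * y * z) = 0) :
    (∃ i, SamePoint ![x, y, z] (tpt i)) ∨ ∃ j, SamePoint ![x, y, z] (qpt j) := by
  have h3 : ((1) * x) * ((-1) * z) = 0 := by
    linear_combination ((1) * x + (4) * z) * h1 + ((-1)) * h2 + 0 * I_sq1
  rcases mul_eq_zero.1 h3 with h | h
  · exact Or.inr ⟨4, same_vec (hv := hv) (0) (0) (((1))) rfl (by intro h; norm_num [Complex.ext_iff] at h) (by linear_combination ((1)) * h1 + 0 * h + 0 * I_sq1) (by linear_combination 0 * h1 + ((-1)) * h + 0 * I_sq1) (by linear_combination 0 * h1 + 0 * h + 0 * I_sq1)⟩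
  · exact Or.inr ⟨5, same_vec (hv := hv) (((1))) (0) (0) rfl (by intro h; norm_num [Complex.ext_iff] at h) (by linear_combination 0 * h1 + 0 * h + 0 * I_sq1) (by linear_combination 0 * h1 + ((-1)) * h + 0 * I_sq1) (by linear_combination ((-1)) * h1 + 0 * h + 0 * I_sq1)⟩

lemma pair_2_3 {x y z : ℂ} (hv : (![x, y, z] : Fin 3 → ℂ) ≠ 0) (h1 : ((1) * z) = 0) (h2 : ((-1) * x + (-1) * y + (-1) * z) = 0) :
    (∃ i, SamePoint ![x, y, z] (tpt i)) ∨ ∃ j, SamePoint ![x, y, z] (qpt j) := by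
  exact Or.inr ⟨0, same_vec (hv := hv) (((1))) (((-1))) (0) rfl (by intro h; norm_num [Complex.ext_iff] at h) (by linear_combination ((1)) * h1 + 0 * h2 + 0 * I_sq1) (by linear_combination ((1)) * h1 + 0 * h2 + 0 * I_sq1) (by linear_combination ((1)) * h1 + ((1)) * h2 + 0 * I_sq1)⟩

lemma pair_2_4 {x y z : ℂ} (hv : (![x, y, z] : Fin 3 → ℂ) ≠ 0) (h1 : ((1) * z) = 0) (h2 : ((-4) * Complex.I * x * y + (4) * Complex.I * x * z + (-4) * Complex.I * y ^ 2 + (4) * Complex.I * z ^ 2 + (3) * x * y + (3) * x * z + (3) * y ^ 2 + (10) * y * z + (3) * z ^ 2) = 0) :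
    (∃ i, SamePoint ![x, y, z] (tpt i)) ∨ ∃ j, SamePoint ![x, y, z] (qpt j) := by
  have h3 : ((-1) * x + (-1) * y) * ((-1) * y) = 0 := by
    linear_combination ((-24 / 25) * Complex.I * x + (-8 / 5) * Complex.I * y + (-24 / 25) * Complex.I * z + (7 / 25) * x + (-6 / 5) * y + (7 / 25) * z) * h1 + ((4 / 25) * Complex.I + (3 / 25)) * h2 + ((16 / 25) * x * y + (-16 / 25) * x * z + (16 / 25) * y ^ 2 + (-16 / 25) * z ^ 2) * I_sq1
  rcases mul_eq_zero.1 h3 with h | h
  · exact Or.inr ⟨0, same_vec (hv := hv) (((1))) (((-1))) (0) rfl (by intro h; norm_num [Complex.ext_iff] at h) (by linear_combination ((1)) * h1 + 0 * h + 0 * I_sq1) (by linear_combination ((1)) * h1 + 0 * h + 0 * I_sq1) (by linear_combination 0 * h1 + ((1)) * h + 0 * I_sq1)⟩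
  · exact Or.inr ⟨5, same_vec (hv := hv) (((1))) (0) (0) rfl (by intro h; norm_num [Complex.ext_iff] at h) (by linear_combination 0 * h1 + 0 * h + 0 * I_sq1) (by linear_combination ((1)) * h1 + 0 * h + 0 * I_sq1) (by linear_combination 0 * h1 + ((1)) * h + 0 * I_sq1)⟩

lemma pair_2_5 {x y z : ℂ} (hv : (![x, y, z] : Fin 3 → ℂ) ≠ 0) (h1 : ((1) * z) = 0) (h2 : ((-2) * Complex.I * x ^ 2 + (-2) * Complex.I * x * y + (-6) * Complex.I * x * z + (-4) * Complex.I * y * z + (-4) * Complex.I * z ^ 2 + (-2) * x * z + (-3) * y * z + (-3) * z ^ 2) = 0) :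
    (∃ i, SamePoint ![x, y, z] (tpt i)) ∨ ∃ j, SamePoint ![x, y, z] (qpt j) := by
  have h3 : ((-1) * x + (-1) * y) * ((1) * x) = 0 := by
    linear_combination ((-1) * Complex.I * x + (-3 / 2) * Complex.I * y + (-3 / 2) * Complex.I * z + (3) * x + (2) * y + (2) * z) * h1 + ((-1 / 2) * Complex.I) * h2 + ((-1) * x ^ 2 + (-1) * x * y + (-3) * x * z + (-2) * y * z + (-2) * z ^ 2) * I_sq1
  rcases mul_eq_zero.1 h3 with h | h
  · exact Or.inr ⟨0, same_vec (hv := hv) (((1))) (((-1))) (0) rfl (by intro h; norm_num [Complex.ext_iff] at h) (by linear_combination ((1)) * h1 + 0 * h + 0 * I_sq1) (by linear_combination ((1)) * h1 + 0 * h + 0 * I_sq1) (by linear_combination 0 * h1 + ((1)) * h + 0 * I_sq1)⟩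
  · exact Or.inr ⟨7, same_vec (hv := hv) (0) (((1))) (0) rfl (by intro h; norm_num [Complex.ext_iff] at h) (by linear_combination ((-1)) * h1 + 0 * h + 0 * I_sq1) (by linear_combination 0 * h1 + 0 * h + 0 * I_sq1) (by linear_combination 0 * h1 + ((1)) * h + 0 * I_sq1)⟩

lemma pair_2_6 {x y z : ℂ} (hv : (![x, y, z] : Fin 3 → ℂ) ≠ 0) (h1 : ((1) * z) = 0) (h2 : ((-2) * Complex.I * x * y + (-3) * Complex.I * y ^ 2 + (-3) * Complex.I * y * z + (-2) * x ^ 2 + (-6) * x * y + (-2) * x * z + (-4) * y ^ 2 + (-4) * y * z) = 0) :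
    (∃ i, SamePoint ![x, y, z] (tpt i)) ∨ ∃ j, SamePoint ![x, y, z] (qpt j) := by
  have h3 : ((1) * Complex.I * y + (2) * x + (3) * y) * ((1) * Complex.I * y + (2) * x + (3) * y) = 0 := by
    linear_combination ((-6) * Complex.I * y + (-4) * x + (-8) * y) * h1 + ((-2)) * h2 + ((1) * y ^ 2) * I_sq1
  rcases mul_eq_zero.1 h3 with h | h
  · exact Or.inl ⟨2, same_vec (hv := hv) (((-1) * Complex.I + (-3))) (((2))) (0) rfl (by intro h; norm_num [Complex.ext_iff] at h) (by linear_combination ((-2)) * h1 + 0 * h + 0 * I_sq1) (by linear_combination ((-1) * Complex.I + (-3)) * h1 + 0 * h + 0 * I_sq1) (by linear_combination 0 * h1 + ((1)) * h + 0 * I_sq1)⟩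
  · exact Or.inl ⟨2, same_vec (hv := hv) (((-1) * Complex.I + (-3))) (((2))) (0) rfl (by intro h; norm_num [Complex.ext_iff] at h) (by linear_combination ((-2)) * h1 + 0 * h + 0 * I_sq1) (by linear_combination ((-1) * Complex.I + (-3)) * h1 + 0 * h + 0 * I_sq1) (by linear_combination 0 * h1 + ((1)) * h + 0 * I_sq1)⟩

lemma pair_2_7 {x y z : ℂ} (hv : (![x, y, z] : Fin 3 → ℂ) ≠ 0) (h1 : ((1) * z) = 0) (h2 : ((1) * x * y + (1) * x * z + (4) * y * z) = 0) :
    (∃ i, SamePoint ![x, y, z] (tpt i)) ∨ ∃ j, SamePoint ![x, y, z] (qpt j) := by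
  have h3 : ((-1) * y) * ((1) * x) = 0 := by
    linear_combination ((1) * x + (4) * y) * h1 + ((-1)) * h2 + 0 * I_sq1
  rcases mul_eq_zero.1 h3 with h | h
  · exact Or.inr ⟨5, same_vec (hv := hv) (((1))) (0) (0) rfl (by intro h; norm_num [Complex.ext_iff] at h) (by linear_combination 0 * h1 + 0 * h + 0 * I_sq1) (by linear_combination ((1)) * h1 + 0 * h + 0 * I_sq1) (by linear_combination 0 * h1 + ((1)) * h + 0 * I_sq1)⟩
  · exact Or.inr ⟨7, same_vec (hv := hv) (0) (((1))) (0) rfl (by intro h; norm_num [Complex.ext_iff] at h) (by linear_combination ((-1)) * h1 + 0 * h + 0 * I_sq1) (by linear_combination 0 * h1 + 0 * h + 0 * I_sq1) (by linear_combination 0 * h1 + ((1)) * h + 0 * I_sq1)⟩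

lemma pair_3_4 {x y z : ℂ} (hv : (![x, y, z] : Fin 3 → ℂ) ≠ 0) (h1 : ((-1) * x + (-1) * y + (-1) * z) = 0) (h2 : ((-4) * Complex.I * x * y + (4) * Complex.I * x * z + (-4) * Complex.I * y ^ 2 + (4) * Complex.I * z ^ 2 + (3) * x * y + (3) * x * z + (3) * y ^ 2 + (10) * y * z + (3) * z ^ 2) = 0) :
    (∃ i, SamePoint ![x, y, z] (tpt i)) ∨ ∃ j, SamePoint ![x, y, z] (qpt j) := by
  have h3 : ((-1) * x + (-1) * y) * ((1) * y) = 0 := by
    linear_combination ((-1) * Complex.I * y + (1) * Complex.I * z + (7 / 4) * y + (3 / 4) * z) * h1 + ((1 / 4)) * h2 + 0 * I_sq1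
  rcases mul_eq_zero.1 h3 with h | h
  · exact Or.inr ⟨0, same_vec (hv := hv) (((1))) (((-1))) (0) rfl (by intro h; norm_num [Complex.ext_iff] at h) (by linear_combination ((-1)) * h1 + ((1)) * h + 0 * I_sq1) (by linear_combination ((-1)) * h1 + ((1)) * h + 0 * I_sq1) (by linear_combination 0 * h1 + ((1)) * h + 0 * I_sq1)⟩
  · exact Or.inr ⟨6, same_vec (hv := hv) (((-1))) (0) (((1))) rfl (by intro h; norm_num [Complex.ext_iff] at h) (by linear_combination 0 * h1 + ((1)) * h + 0 * I_sq1) (by linear_combination ((1)) * h1 + ((1)) * h + 0 * I_sq1) (by linear_combination 0 * h1 + ((1)) * h + 0 * I_sq1)⟩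

lemma pair_3_5 {x y z : ℂ} (hv : (![x, y, z] : Fin 3 → ℂ) ≠ 0) (h1 : ((-1) * x + (-1) * y + (-1) * z) = 0) (h2 : ((-2) * Complex.I * x ^ 2 + (-2) * Complex.I * x * y + (-6) * Complex.I * x * z + (-4) * Complex.I * y * z + (-4) * Complex.I * z ^ 2 + (-2) * x * z + (-3) * y * z + (-3) * z ^ 2) = 0) :
    (∃ i, SamePoint ![x, y, z] (tpt i)) ∨ ∃ j, SamePoint ![x, y, z] (qpt j) := by
  have h3 : ((-1) * x + (-1) * y) * ((1) * x) = 0 := by
    linear_combination ((-2) * Complex.I * x + (-4) * Complex.I * z + (1) * x + (-3) * z) * h1 + ((1)) * h2 + 0 * I_sq1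
  rcases mul_eq_zero.1 h3 with h | h
  · exact Or.inr ⟨0, same_vec (hv := hv) (((1))) (((-1))) (0) rfl (by intro h; norm_num [Complex.ext_iff] at h) (by linear_combination ((-1)) * h1 + ((1)) * h + 0 * I_sq1) (by linear_combination ((-1)) * h1 + ((1)) * h + 0 * I_sq1) (by linear_combination 0 * h1 + ((1)) * h + 0 * I_sq1)⟩
  · exact Or.inr ⟨8, same_vec (hv := hv) (0) (((1))) (((-1))) rfl (by intro h; norm_num [Complex.ext_iff] at h) (by linear_combination ((1)) * h1 + ((1)) * h + 0 * I_sq1) (by linear_combination 0 * h1 + ((1)) * h + 0 * I_sq1) (by linear_combination 0 * h1 + ((1)) * h + 0 * I_sq1)⟩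

lemma pair_3_6 {x y z : ℂ} (hv : (![x, y, z] : Fin 3 → ℂ) ≠ 0) (h1 : ((-1) * x + (-1) * y + (-1) * z) = 0) (h2 : ((-2) * Complex.I * x * y + (-3) * Complex.I * y ^ 2 + (-3) * Complex.I * y * z + (-2) * x ^ 2 + (-6) * x * y + (-2) * x * z + (-4) * y ^ 2 + (-4) * y * z) = 0) :
    (∃ i, SamePoint ![x, y, z] (tpt i)) ∨ ∃ j, SamePoint ![x, y, z] (qpt j) := by
  have h3 : ((1) * y) * ((1) * x) = 0 := by
    linear_combination ((2) * Complex.I * x + (4) * Complex.I * y + (-3) * y) * h1 + ((-1) * Complex.I) * h2 + ((-2) * x * y + (-3) * y ^ 2 + (-3) * y * z) * I_sq1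
  rcases mul_eq_zero.1 h3 with h | h
  · exact Or.inr ⟨6, same_vec (hv := hv) (((-1))) (0) (((1))) rfl (by intro h; norm_num [Complex.ext_iff] at h) (by linear_combination 0 * h1 + ((1)) * h + 0 * I_sq1) (by linear_combination ((1)) * h1 + ((1)) * h + 0 * I_sq1) (by linear_combination 0 * h1 + ((1)) * h + 0 * I_sq1)⟩
  · exact Or.inr ⟨8, same_vec (hv := hv) (0) (((1))) (((-1))) rfl (by intro h; norm_num [Complex.ext_iff] at h) (by linear_combination ((1)) * h1 + ((1)) * h + 0 * I_sq1) (by linear_combination 0 * h1 + ((1)) * h + 0 * I_sq1) (by linear_combination 0 * h1 + ((1)) * h + 0 * I_sq1)⟩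

lemma pair_3_7 {x y z : ℂ} (hv : (![x, y, z] : Fin 3 → ℂ) ≠ 0) (h1 : ((-1) * x + (-1) * y + (-1) * z) = 0) (h2 : ((1) * x * y + (1) * x * z + (4) * y * z) = 0) :
    (∃ i, SamePoint ![x, y, z] (tpt i)) ∨ ∃ j, SamePoint ![x, y, z] (qpt j) := by
  have h3 : ((1) * x + (2) * y) * ((1) * x + (2) * y) = 0 := by
    linear_combination ((-1) * x + (-4) * y) * h1 + ((-1)) * h2 + 0 * I_sq1
  rcases mul_eq_zero.1 h3 with h | h
  · exact Or.inl ⟨3, same_vec (hv := hv) (((-2))) (((1))) (((1))) rfl (by intro h; norm_num [Complex.ext_iff] at h) (by linear_combination ((1)) * h1 + ((1)) * h + 0 * I_sq1) (by linear_combination ((2)) * h1 + ((1)) * h + 0 * I_sq1) (by linear_combination 0 * h1 + ((1)) * h + 0 * I_sq1)⟩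
  · exact Or.inl ⟨3, same_vec (hv := hv) (((-2))) (((1))) (((1))) rfl (by intro h; norm_num [Complex.ext_iff] at h) (by linear_combination ((1)) * h1 + ((1)) * h + 0 * I_sq1) (by linear_combination ((2)) * h1 + ((1)) * h + 0 * I_sq1) (by linear_combination 0 * h1 + ((1)) * h + 0 * I_sq1)⟩

lemma pair_4_5 {x y z : ℂ} (hv : (![x, y, z] : Fin 3 → ℂ) ≠ 0) (h1 : ((-4) * Complex.I * x * y + (4) * Complex.I * x * z + (-4) * Complex.I * y ^ 2 + (4) * Complex.I * z ^ 2 + (3) * x * y + (3) * x * z + (3) * y ^ 2 + (10) * y * z + (3) * z ^ 2) = 0) (h2 : ((-2) * Complex.I * x ^ 2 + (-2) * Complex.I * x * y + (-6) * Complex.I * x * z + (-4) * Complex.I * y * z + (-4) * Complex.I * z ^ 2 + (-2) * x * z + (-3) * y * z + (-3) * z ^ 2) = 0) :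
    (∃ i, SamePoint ![x, y, z] (tpt i)) ∨ ∃ j, SamePoint ![x, y, z] (qpt j) := by
  have h3 : ((-3) * Complex.I * z + (5) * x + (5) * y + (4) * z) * ((-5) * Complex.I * y + (-5) * Complex.I * z + (-20) * x + (-15) * y + (-35) * z) = 0 := by
    linear_combination ((-15) * Complex.I + (-5)) * h1 + ((-50) * Complex.I) * h2 + ((-100) * x ^ 2 + (-160) * x * y + (-240) * x * z + (-60) * y ^ 2 + (-185) * y * z + (-125) * z ^ 2) * I_sq1
  have h4 : ((-1) * Complex.I * x + (-1) * Complex.I * y + (2) * x + (2) * y + (5) * z) * ((5) * Complex.I * y + (5) * Complex.I * z + (-20) * x + (-35) * y + (-15) * z) = 0 := by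
    linear_combination ((-5) * Complex.I + (-15)) * h1 + ((-20) * Complex.I + (-10)) * h2 + ((-40) * x ^ 2 + (-65) * x * y + (-105) * x * z + (-25) * y ^ 2 + (-85) * y * z + (-60) * z ^ 2) * I_sq1
  rcases mul_eq_zero.1 h3 with h | h <;> rcases mul_eq_zero.1 h4 with h' | h'
  · exact Or.inr ⟨0, same_vec (hv := hv) (((1))) (((-1))) (0) rfl (by intro h; norm_num [Complex.ext_iff] at h) (by linear_combination ((2 / 25) * Complex.I + (-3 / 50)) * h + ((-1 / 10) * Complex.I + (1 / 5)) * h' + ((-1 / 10) * x + (-1 / 10) * y + (6 / 25) * z) * I_sq1) (by linear_combination ((2 / 25) * Complex.I + (-3 / 50)) * h + ((-1 / 10) * Complex.I + (1 / 5)) * h' + ((-1 / 10) * x + (-1 / 10) * y + (6 / 25) * z) * I_sq1) (by linear_combination ((1 / 10) * Complex.I + (-1 / 5)) * h + ((-1 / 5) * Complex.I + (1 / 10)) * h' + ((-1 / 5) * x + (-1 / 5) * y + (3 / 10) * z) * I_sq1)⟩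
  · exact Or.inr ⟨1, same_vec (hv := hv) (((-5) * Complex.I + (5))) (((2) * Complex.I + (-1))) (((-5))) rfl (by intro h; norm_num [Complex.ext_iff] at h) (by linear_combination ((2 / 5) * Complex.I + (6 / 5)) * h + ((1 / 10) * Complex.I + (3 / 10)) * h' + ((-1 / 2) * y + (7 / 10) * z) * I_sq1) (by linear_combination ((2 / 5) * Complex.I + (11 / 5)) * h + ((1 / 10) * Complex.I + (3 / 10)) * h' + ((-1 / 2) * y + (7 / 10) * z) * I_sq1) (by linear_combination ((1)) * h + ((-1 / 10) * Complex.I + (3 / 10)) * h' + ((1 / 2) * y + (1 / 2) * z) * I_sq1)⟩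
  · exact Or.inr ⟨2, same_vec (hv := hv) (((-5) * Complex.I + (5))) (((5) * Complex.I)) (((1) * Complex.I + (-2))) rfl (by intro h; norm_num [Complex.ext_iff] at h) (by linear_combination ((-1 / 10) * Complex.I + (-3 / 10)) * h + ((-2) * Complex.I + (-2)) * h' + ((-2) * x + (-5 / 2) * y + (-1 / 2) * z) * I_sq1) (by linear_combination ((-1 / 10) * Complex.I + (-3 / 10)) * h + ((-2) * Complex.I + (-1)) * h' + ((-2) * x + (-5 / 2) * y + (-1 / 2) * z) * I_sq1) (by linear_combination ((-1 / 2) * Complex.I + (-1 / 2)) * h + ((-4) * Complex.I + (-3)) * h' + ((-4) * x + (-13 / 2) * y + (-5 / 2) * z) * I_sq1)⟩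
  · exact Or.inr ⟨3, same_vec (hv := hv) (((-5) * Complex.I + (5))) (((1) * Complex.I + (-3))) (((3) * Complex.I + (-1))) rfl (by intro h; norm_num [Complex.ext_iff] at h) (by linear_combination ((1 / 10) * Complex.I + (-1 / 10)) * h + ((-1 / 10) * Complex.I + (1 / 10)) * h' + ((1) * y + (1) * z) * I_sq1) (by linear_combination ((1 / 5) * Complex.I + (-3 / 20)) * h + ((-1 / 20) * Complex.I + (1 / 10)) * h' + ((5 / 4) * y + (5 / 4) * z) * I_sq1) (by linear_combination ((1 / 10) * Complex.I + (-1 / 20)) * h + ((-3 / 20) * Complex.I + (1 / 5)) * h' + ((5 / 4) * y + (5 / 4) * z) * I_sq1)⟩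

lemma pair_4_6 {x y z : ℂ} (hv : (![x, y, z] : Fin 3 → ℂ) ≠ 0) (h1 : ((-4) * Complex.I * x * y + (4) * Complex.I * x * z + (-4) * Complex.I * y ^ 2 + (4) * Complex.I * z ^ 2 + (3) * x * y + (3) * x * z + (3) * y ^ 2 + (10) * y * z + (3) * z ^ 2) = 0) (h2 : ((-2) * Complex.I * x * y + (-3) * Complex.I * y ^ 2 + (-3) * Complex.I * y * z + (-2) * x ^ 2 + (-6) * x * y + (-2) * x * z + (-4) * y ^ 2 + (-4) * y * z) = 0) :
    (∃ i, SamePoint ![x, y, z] (tpt i)) ∨ ∃ j, SamePoint ![x, y, z] (qpt j) := by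
  have h3 : ((20) * Complex.I * x + (10) * Complex.I * y + (10) * Complex.I * z + (-20) * y + (20) * z) * ((1) * Complex.I * x + (2) * Complex.I * y + (1) * Complex.I * z + (-3) * x + (-4) * y + (-3) * z) = 0 := by
    linear_combination ((10) * Complex.I + (-10)) * h1 + ((30) * Complex.I + (10)) * h2 + ((20) * x ^ 2 + (150) * x * y + (-10) * x * z + (150) * y ^ 2 + (120) * y * z + (-30) * z ^ 2) * I_sq1
  have h4 : ((5) * Complex.I * y + (5) * Complex.I * z + (-20) * x + (-35) * y + (-15) * z) * ((5) * Complex.I * x + (4) * Complex.I * y + (5) * Complex.I * z + (-3) * y) = 0 := by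
    linear_combination ((-5) * Complex.I + (-15)) * h1 + ((50) * Complex.I) * h2 + ((105) * x * y + (45) * x * z + (150) * y ^ 2 + (195) * y * z + (45) * z ^ 2) * I_sq1
  rcases mul_eq_zero.1 h3 with h | h <;> rcases mul_eq_zero.1 h4 with h' | h'
  · exact Or.inr ⟨1, same_vec (hv := hv) (((-5) * Complex.I + (5))) (((2) * Complex.I + (-1))) (((-5))) rfl (by intro h; norm_num [Complex.ext_iff] at h) (by linear_combination ((-1 / 10) * Complex.I + (1 / 10)) * h + ((1 / 10) * Complex.I + (1 / 10)) * h' + ((2) * x + (1 / 2) * y + (1 / 2) * z) * I_sq1) (by linear_combination ((-1 / 5) * Complex.I + (3 / 20)) * h + ((3 / 20) * Complex.I + (-1 / 20)) * h' + ((4) * x + (5 / 4) * y + (5 / 4) * z) * I_sq1) (by linear_combination ((-1 / 10) * Complex.I + (1 / 20)) * h + ((-1 / 20) * Complex.I + (3 / 20)) * h' + ((2) * x + (5 / 4) * y + (5 / 4) * z) * I_sq1)⟩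
  · exact Or.inr ⟨2, same_vec (hv := hv) (((-5) * Complex.I + (5))) (((5) * Complex.I)) (((1) * Complex.I + (-2))) rfl (by intro h; norm_num [Complex.ext_iff] at h) (by linear_combination ((-1 / 5) * Complex.I + (1 / 10)) * h + ((4 / 5) * Complex.I + (-2 / 5)) * h' + ((-6 / 5) * y + (-2) * z) * I_sq1) (by linear_combination ((-1 / 10) * Complex.I + (1 / 5)) * h + ((-1)) * h' + ((2) * x + (1) * y + (1) * z) * I_sq1) (by linear_combination ((-1 / 5) * Complex.I + (1 / 10)) * h + ((4 / 5) * Complex.I + (3 / 5)) * h' + ((-6 / 5) * y + (-2) * z) * I_sq1)⟩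
  · exact Or.inr ⟨3, same_vec (hv := hv) (((-5) * Complex.I + (5))) (((1) * Complex.I + (-3))) (((3) * Complex.I + (-1))) rfl (by intro h; norm_num [Complex.ext_iff] at h) (by linear_combination ((2) * Complex.I + (-2)) * h + ((-2 / 5) * Complex.I + (1 / 5)) * h' + ((-2) * x + (-2) * y) * I_sq1) (by linear_combination ((4) * Complex.I + (-3)) * h + ((-3 / 5) * Complex.I + (1 / 5)) * h' + ((-4) * x + (-5) * y + (-1) * z) * I_sq1) (by linear_combination ((2) * Complex.I + (-1)) * h + ((-2 / 5) * Complex.I + (1 / 5)) * h' + ((-2) * x + (-2) * y) * I_sq1)⟩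
  · exact Or.inr ⟨6, same_vec (hv := hv) (((-1))) (0) (((1))) rfl (by intro h; norm_num [Complex.ext_iff] at h) (by linear_combination ((-3 / 10) * Complex.I + (-1 / 10)) * h + ((3 / 25) * Complex.I + (-4 / 25)) * h' + ((-3 / 10) * x + (3 / 25) * y + (-3 / 10) * z) * I_sq1) (by linear_combination ((-3 / 10) * Complex.I + (1 / 10)) * h + ((1 / 5) * Complex.I + (-1 / 5)) * h' + ((-7 / 10) * x + (-1 / 5) * y + (-7 / 10) * z) * I_sq1) (by linear_combination ((-3 / 10) * Complex.I + (-1 / 10)) * h + ((3 / 25) * Complex.I + (-4 / 25)) * h' + ((-3 / 10) * x + (3 / 25) * y + (-3 / 10) * z) * I_sq1)⟩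

lemma pair_4_7 {x y z : ℂ} (hv : (![x, y, z] : Fin 3 → ℂ) ≠ 0) (h1 : ((-4) * Complex.I * x * y + (4) * Complex.I * x * z + (-4) * Complex.I * y ^ 2 + (4) * Complex.I * z ^ 2 + (3) * x * y + (3) * x * z + (3) * y ^ 2 + (10) * y * z + (3) * z ^ 2) = 0) (h2 : ((1) * x * y + (1) * x * z + (4) * y * z) = 0) :
    (∃ i, SamePoint ![x, y, z] (tpt i)) ∨ ∃ j, SamePoint ![x, y, z] (qpt j) := by
  have h3 : ((20) * Complex.I * x + (10) * Complex.I * y + (10) * Complex.I * z + (-20) * y + (20) * z) * ((3) * Complex.I * y + (-1) * Complex.I * z + (-1) * y + (3) * z) = 0 := by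
    linear_combination ((-10) * Complex.I + (10)) * h1 + ((50) * Complex.I + (-50)) * h2 + ((20) * x * y + (20) * x * z + (-10) * y ^ 2 + (20) * y * z + (30) * z ^ 2) * I_sq1
  have h4 : ((5) * Complex.I * y + (5) * Complex.I * z + (-20) * x + (-35) * y + (-15) * z) * ((1) * Complex.I * y + (-5) * Complex.I * z + (-2) * y) = 0 := by
    linear_combination ((5) * Complex.I + (15)) * h1 + ((25) * Complex.I + (-25)) * h2 + ((20) * x * y + (-20) * x * z + (25) * y ^ 2 + (-20) * y * z + (-45) * z ^ 2) * I_sq1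
  rcases mul_eq_zero.1 h3 with h | h <;> rcases mul_eq_zero.1 h4 with h' | h'
  · exact Or.inr ⟨1, same_vec (hv := hv) (((-5) * Complex.I + (5))) (((2) * Complex.I + (-1))) (((-5))) rfl (by intro h; norm_num [Complex.ext_iff] at h) (by linear_combination ((-1 / 10) * Complex.I + (1 / 10)) * h + ((1 / 10) * Complex.I + (1 / 10)) * h' + ((2) * x + (1 / 2) * y + (1 / 2) * z) * I_sq1) (by linear_combination ((-1 / 5) * Complex.I + (3 / 20)) * h + ((3 / 20) * Complex.I + (-1 / 20)) * h' + ((4) * x + (5 / 4) * y + (5 / 4) * z) * I_sq1) (by linear_combination ((-1 / 10) * Complex.I + (1 / 20)) * h + ((-1 / 20) * Complex.I + (3 / 20)) * h' + ((2) * x + (5 / 4) * y + (5 / 4) * z) * I_sq1)⟩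
  · exact Or.inr ⟨2, same_vec (hv := hv) (((-5) * Complex.I + (5))) (((5) * Complex.I)) (((1) * Complex.I + (-2))) rfl (by intro h; norm_num [Complex.ext_iff] at h) (by linear_combination 0 * h + ((1)) * h' + 0 * I_sq1) (by linear_combination ((-1 / 10) * Complex.I + (-1 / 20)) * h + ((1) * Complex.I + (1 / 2)) * h' + ((2) * x + (6) * z) * I_sq1) (by linear_combination ((1 / 4)) * h + ((-1) * Complex.I + (1 / 2)) * h' + ((1) * y + (-5) * z) * I_sq1)⟩
  · exact Or.inr ⟨3, same_vec (hv := hv) (((-5) * Complex.I + (5))) (((1) * Complex.I + (-3))) (((3) * Complex.I + (-1))) rfl (by intro h; norm_num [Complex.ext_iff] at h) (by linear_combination ((1)) * h + 0 * h' + 0 * I_sq1) (by linear_combination ((-1 / 4) * Complex.I + (7 / 4)) * h + ((3 / 20) * Complex.I + (-1 / 20)) * h' + ((-1) * z) * I_sq1) (by linear_combination ((-1 / 4) * Complex.I + (3 / 4)) * h + ((-1 / 20) * Complex.I + (3 / 20)) * h' + ((1) * y) * I_sq1)⟩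
  · exact Or.inr ⟨5, same_vec (hv := hv) (((1))) (0) (0) rfl (by intro h; norm_num [Complex.ext_iff] at h) (by linear_combination 0 * h + 0 * h' + 0 * I_sq1) (by linear_combination ((-1 / 20) * Complex.I + (1 / 10)) * h + ((3 / 20) * Complex.I + (-1 / 20)) * h' + ((7 / 10) * z) * I_sq1) (by linear_combination ((1 / 4) * Complex.I) * h + ((-1 / 20) * Complex.I + (3 / 20)) * h' + ((-7 / 10) * y) * I_sq1)⟩

lemma pair_5_6 {x y z : ℂ} (hv : (![x, y, z] : Fin 3 → ℂ) ≠ 0) (h1 : ((-2) * Complex.I * x ^ 2 + (-2) * Complex.I * x * y + (-6) * Complex.I * x * z + (-4) * Complex.I * y * z + (-4) * Complex.I * z ^ 2 + (-2) * x * z + (-3) * y * z + (-3) * z ^ 2) = 0) (h2 : ((-2) * Complex.I * x * y + (-3) * Complex.I * y ^ 2 + (-3) * Complex.I * y * z + (-2) * x ^ 2 + (-6) * x * y + (-2) * x * z + (-4) * y ^ 2 + (-4) * y * z) = 0) :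
    (∃ i, SamePoint ![x, y, z] (tpt i)) ∨ ∃ j, SamePoint ![x, y, z] (qpt j) := by
  have h3 : ((20) * Complex.I * x + (10) * Complex.I * y + (10) * Complex.I * z + (-20) * y + (20) * z) * ((-4) * Complex.I * x + (-5) * Complex.I * y + (-5) * Complex.I * z + (4) * x + (5) * y + (5) * z) = 0 := by
    linear_combination ((30) * Complex.I + (-10)) * h1 + ((-30) * Complex.I + (-10)) * h2 + ((-20) * x ^ 2 + (-140) * x * y + (40) * x * z + (-140) * y ^ 2 + (-70) * y * z + (70) * z ^ 2) * I_sq1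
  have h4 : ((5) * Complex.I * y + (5) * Complex.I * z + (-20) * x + (-35) * y + (-15) * z) * ((-6) * Complex.I * x + (-5) * Complex.I * y + (-5) * Complex.I * z + (2) * x + (5) * y + (5) * z) = 0 := by
    linear_combination ((-20) * Complex.I + (-10)) * h1 + ((-50) * Complex.I) * h2 + ((-40) * x ^ 2 + (-170) * x * y + (-150) * x * z + (-175) * y ^ 2 + (-280) * y * z + (-105) * z ^ 2) * I_sq1
  rcases mul_eq_zero.1 h3 with h | h <;> rcases mul_eq_zero.1 h4 with h' | h'
  · exact Or.inr ⟨1, same_vec (hv := hv) (((-5) * Complex.I + (5))) (((2) * Complex.I + (-1))) (((-5))) rfl (by intro h; norm_num [Complex.ext_iff] at h) (by linear_combination ((-1 / 10) * Complex.I + (1 / 10)) * h + ((1 / 10) * Complex.I + (1 / 10)) * h' + ((2) * x + (1 / 2) * y + (1 / 2) * z) * I_sq1) (by linear_combination ((-1 / 5) * Complex.I + (3 / 20)) * h + ((3 / 20) * Complex.I + (-1 / 20)) * h' + ((4) * x + (5 / 4) * y + (5 / 4) * z) * I_sq1) (by linear_combination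 ((-1 / 10) * Complex.I + (1 / 20)) * h + ((-1 / 20) * Complex.I + (3 / 20)) * h' + ((2) * x + (5 / 4) * y + (5 / 4) * z) * I_sq1)⟩
  · exact Or.inr ⟨2, same_vec (hv := hv) (((-5) * Complex.I + (5))) (((5) * Complex.I)) (((1) * Complex.I + (-2))) rfl (by intro h; norm_num [Complex.ext_iff] at h) (by linear_combination ((-3 / 20) * Complex.I + (1 / 20)) * h + ((-1 / 2) * Complex.I) * h' + ((-1) * y + (-1) * z) * I_sq1) (by linear_combination ((-1 / 8) * Complex.I + (1 / 8)) * h + ((-1 / 4) * Complex.I + (1 / 2)) * h' + ((1) * x) * I_sq1) (by linear_combination ((-1 / 8) * Complex.I + (1 / 8)) * h + ((-1 / 4) * Complex.I + (-1 / 2)) * h' + ((1) * x) * I_sq1)⟩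
  · exact Or.inr ⟨3, same_vec (hv := hv) (((-5) * Complex.I + (5))) (((1) * Complex.I + (-3))) (((3) * Complex.I + (-1))) rfl (by intro h; norm_num [Complex.ext_iff] at h) (by linear_combination ((1)) * h + ((-1 / 5) * Complex.I + (1 / 5)) * h' + ((1) * y + (1) * z) * I_sq1) (by linear_combination ((-1 / 4) * Complex.I + (7 / 4)) * h + ((-1 / 4) * Complex.I + (1 / 4)) * h' + ((-1) * x) * I_sq1) (by linear_combination ((-1 / 4) * Complex.I + (3 / 4)) * h + ((-1 / 4) * Complex.I + (1 / 4)) * h' + ((-1) * x) * I_sq1)⟩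
  · exact Or.inr ⟨8, same_vec (hv := hv) (0) (((1))) (((-1))) rfl (by intro h; norm_num [Complex.ext_iff] at h) (by linear_combination ((-3 / 10) * Complex.I + (1 / 10)) * h + ((1 / 5) * Complex.I + (-1 / 5)) * h' + ((-1 / 2) * y + (-1 / 2) * z) * I_sq1) (by linear_combination ((-1 / 4) * Complex.I + (1 / 4)) * h + ((1 / 4) * Complex.I + (-1 / 4)) * h' + ((1 / 2) * x) * I_sq1) (by linear_combination ((-1 / 4) * Complex.I + (1 / 4)) * h + ((1 / 4) * Complex.I + (-1 / 4)) * h' + ((1 / 2) * x) * I_sq1)⟩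

lemma pair_5_7 {x y z : ℂ} (hv : (![x, y, z] : Fin 3 → ℂ) ≠ 0) (h1 : ((-2) * Complex.I * x ^ 2 + (-2) * Complex.I * x * y + (-6) * Complex.I * x * z + (-4) * Complex.I * y * z + (-4) * Complex.I * z ^ 2 + (-2) * x * z + (-3) * y * z + (-3) * z ^ 2) = 0) (h2 : ((1) * x * y + (1) * x * z + (4) * y * z) = 0) :
    (∃ i, SamePoint ![x, y, z] (tpt i)) ∨ ∃ j, SamePoint ![x, y, z] (qpt j) := by
  have h3 : ((20) * Complex.I * x + (10) * Complex.I * y + (10) * Complex.I * z + (-20) * y + (20) * z) * ((-3) * Complex.I * x + (-5) * Complex.I * z + (1) * x + (5) * z) = 0 := by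
    linear_combination ((30) * Complex.I + (-10)) * h1 + ((50) * Complex.I + (-50)) * h2 + ((30) * x * y + (50) * x * z + (70) * y * z + (70) * z ^ 2) * I_sq1
  have h4 : ((5) * Complex.I * y + (5) * Complex.I * z + (-20) * x + (-35) * y + (-15) * z) * ((-1) * Complex.I * x + (-5) * Complex.I * z + (2) * x + (5) * z) = 0 := by
    linear_combination ((-20) * Complex.I + (-10)) * h1 + ((25) * Complex.I + (-25)) * h2 + ((-40) * x ^ 2 + (-45) * x * y + (-125) * x * z + (-105) * y * z + (-105) * z ^ 2) * I_sq1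
  rcases mul_eq_zero.1 h3 with h | h <;> rcases mul_eq_zero.1 h4 with h' | h'
  · exact Or.inr ⟨1, same_vec (hv := hv) (((-5) * Complex.I + (5))) (((2) * Complex.I + (-1))) (((-5))) rfl (by intro h; norm_num [Complex.ext_iff] at h) (by linear_combination ((-1 / 10) * Complex.I + (1 / 10)) * h + ((1 / 10) * Complex.I + (1 / 10)) * h' + ((2) * x + (1 / 2) * y + (1 / 2) * z) * I_sq1) (by linear_combination ((-1 / 5) * Complex.I + (3 / 20)) * h + ((3 / 20) * Complex.I + (-1 / 20)) * h' + ((4) * x + (5 / 4) * y + (5 / 4) * z) * I_sq1) (by linear_combination ((-1 / 10) * Complex.I + (1 / 20)) * h + ((-1 / 20) * Complex.I + (3 / 20)) * h' + ((2) * x + (5 / 4) * y + (5 / 4) * z) * I_sq1)⟩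
  · exact Or.inr ⟨2, same_vec (hv := hv) (((-5) * Complex.I + (5))) (((5) * Complex.I)) (((1) * Complex.I + (-2))) rfl (by intro h; norm_num [Complex.ext_iff] at h) (by linear_combination ((1 / 10)) * h + ((-4 / 5) * Complex.I + (2 / 5)) * h' + ((-4 / 5) * x + (-4) * z) * I_sq1) (by linear_combination 0 * h + ((1)) * h' + 0 * I_sq1) (by linear_combination ((-1 / 10) * Complex.I + (3 / 10)) * h + ((-4 / 5) * Complex.I + (-3 / 5)) * h' + ((6 / 5) * x + (1) * y + (-3) * z) * I_sq1)⟩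
  · exact Or.inr ⟨3, same_vec (hv := hv) (((-5) * Complex.I + (5))) (((1) * Complex.I + (-3))) (((3) * Complex.I + (-1))) rfl (by intro h; norm_num [Complex.ext_iff] at h) (by linear_combination ((2 / 25) * Complex.I + (14 / 25)) * h + ((-2 / 25) * Complex.I + (1 / 25)) * h' + ((6 / 25) * x + (2 / 5) * y + (4 / 5) * z) * I_sq1) (by linear_combination ((1)) * h + 0 * h' + 0 * I_sq1) (by linear_combination ((-2 / 25) * Complex.I + (11 / 25)) * h + ((-3 / 25) * Complex.I + (4 / 25)) * h' + ((-6 / 25) * x + (3 / 5) * y + (1 / 5) * z) * I_sq1)⟩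
  · exact Or.inr ⟨7, same_vec (hv := hv) (0) (((1))) (0) rfl (by intro h; norm_num [Complex.ext_iff] at h) (by linear_combination ((1 / 10) * Complex.I + (-1 / 10)) * h + ((-1 / 5) * Complex.I) * h' + ((1 / 10) * x + (-1 / 2) * z) * I_sq1) (by linear_combination 0 * h + 0 * h' + 0 * I_sq1) (by linear_combination ((2 / 5) * Complex.I + (-1 / 5)) * h + ((-2 / 5) * Complex.I + (1 / 5)) * h' + ((4 / 5) * x) * I_sq1)⟩

lemma pair_6_7 {x y z : ℂ} (hv : (![x, y, z] : Fin 3 → ℂ) ≠ 0) (h1 : ((-2) * Complex.I * x * y + (-3) * Complex.I * y ^ 2 + (-3) * Complex.I * y * z + (-2) * x ^ 2 + (-6) * x * y + (-2) * x * z + (-4) * y ^ 2 + (-4) * y * z) = 0) (h2 : ((1) * x * y + (1) * x * z + (4) * y * z) = 0) :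
    (∃ i, SamePoint ![x, y, z] (tpt i)) ∨ ∃ j, SamePoint ![x, y, z] (qpt j) := by
  have h3 : ((20) * Complex.I * x + (10) * Complex.I * y + (10) * Complex.I * z + (-20) * y + (20) * z) * ((1) * Complex.I * x + (5) * Complex.I * y + (-3) * x + (-5) * y) = 0 := by
    linear_combination ((30) * Complex.I + (10)) * h1 + ((50) * Complex.I + (-50)) * h2 + ((20) * x ^ 2 + (170) * x * y + (10) * x * z + (140) * y ^ 2 + (140) * y * z) * I_sq1
  have h4 : ((5) * Complex.I * y + (5) * Complex.I * z + (-20) * x + (-35) * y + (-15) * z) * ((5) * Complex.I * x + (5) * Complex.I * y + (-5) * y) = 0 := by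
    linear_combination ((50) * Complex.I) * h1 + ((25) * Complex.I + (-25)) * h2 + ((125) * x * y + (25) * x * z + (175) * y ^ 2 + (175) * y * z) * I_sq1
  rcases mul_eq_zero.1 h3 with h | h <;> rcases mul_eq_zero.1 h4 with h' | h'
  · exact Or.inr ⟨1, same_vec (hv := hv) (((-5) * Complex.I + (5))) (((2) * Complex.I + (-1))) (((-5))) rfl (by intro h; norm_num [Complex.ext_iff] at h) (by linear_combination ((-1 / 10) * Complex.I + (1 / 10)) * h + ((1 / 10) * Complex.I + (1 / 10)) * h' + ((2) * x + (1 / 2) * y + (1 / 2) * z) * I_sq1) (by linear_combination ((-1 / 5) * Complex.I + (3 / 20)) * h + ((3 / 20) * Complex.I + (-1 / 20)) * h' + ((4) * x + (5 / 4) * y + (5 / 4) * z) * I_sq1) (by linear_combination ((-1 / 10) * Complex.I + (1 / 20)) * h + ((-1 / 20) * Complex.I + (3 / 20)) * h' + ((2) * x + (5 / 4) * y + (5 / 4) * z) * I_sq1)⟩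
  · exact Or.inr ⟨2, same_vec (hv := hv) (((-5) * Complex.I + (5))) (((5) * Complex.I)) (((1) * Complex.I + (-2))) rfl (by intro h; norm_num [Complex.ext_iff] at h) (by linear_combination ((-1 / 5) * Complex.I + (-1 / 10)) * h + ((4 / 5) * Complex.I + (2 / 5)) * h' + ((-2) * y + (2) * z) * I_sq1) (by linear_combination ((-3 / 10) * Complex.I + (1 / 10)) * h + ((4 / 5) * Complex.I + (-3 / 5)) * h' + ((2) * x + (-1) * y + (3) * z) * I_sq1) (by linear_combination 0 * h + ((1)) * h' + 0 * I_sq1)⟩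
  · exact Or.inr ⟨3, same_vec (hv := hv) (((-5) * Complex.I + (5))) (((1) * Complex.I + (-3))) (((3) * Complex.I + (-1))) rfl (by intro h; norm_num [Complex.ext_iff] at h) (by linear_combination ((2 / 5) * Complex.I + (6 / 5)) * h + ((-1 / 5)) * h' + ((-2 / 5) * x + (-2) * y) * I_sq1) (by linear_combination ((2 / 5) * Complex.I + (11 / 5)) * h + ((1 / 5) * Complex.I + (-2 / 5)) * h' + ((-2 / 5) * x + (-3) * y + (-1) * z) * I_sq1) (by linear_combination ((1)) * h + 0 * h' + 0 * I_sq1)⟩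
  · exact Or.inr ⟨4, same_vec (hv := hv) (0) (0) (((1))) rfl (by intro h; norm_num [Complex.ext_iff] at h) (by linear_combination ((-7 / 50) * Complex.I + (-1 / 50)) * h + ((1 / 25) * Complex.I + (-2 / 25)) * h' + ((-3 / 50) * x + (1 / 2) * y) * I_sq1) (by linear_combination ((-4 / 25) * Complex.I + (3 / 25)) * h + ((4 / 25) * Complex.I + (-3 / 25)) * h' + ((-16 / 25) * x) * I_sq1) (by linear_combination 0 * h + 0 * h' + 0 * I_sq1)⟩


end Pool.Agent.Q82.CL
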