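import Mathlib

/-!
# A weak combinatorial type of four lines and four conics: definitions
-/

set_option autoImplicit false

open MvPolynomial

namespace Pool.Agent.Q82.CL

/-- The form `F` in three variables defines a smooth plane curve of degree `d`. -/
def IsSmoothCurve (d : ℕ) (F : MvPolynomial (Fin 3) ℂ) : Prop :=
  F.IsHomogeneous d ∧ F ≠ 0 ∧
    ∀ v : Fin 3 → ℂ, v ≠ 0 → eval v F = 0 → ∃ i, eval v (pderiv i F) ≠ 0

/-- The nonzero vectors `v`, `w` represent the same point of the projective plane. -/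
def SamePoint (v w : Fin 3 → ℂ) : Prop := ∃ c : ℂ, c ≠ 0 ∧ v = c • w

/-- The gradients of `F` and `G` at `v` are not proportional. For smooth curves `F = 0`, `G = 0`
through `v`: their tangent lines at `v` are different. -/
def Transversal (F G : MvPolynomial (Fin 3) ℂ) (v : Fin 3 → ℂ) : Prop :=
  ∃ i j, eval v (pderiv i F) * eval v (pderiv j G) ≠ eval v (pderiv j F) * eval v (pderiv i G)

/-- The degrees of the eight components: the components `0, 1, 2, 3` are the lines
`L₁, L₂, L₃, L₄`, and the components `4, 5, 6, 7` are the conics `C₁, C₂, C₃, C₄`. -/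
def deg : Fin 8 → ℕ := ![1, 1, 1, 1, 2, 2, 2, 2]

/-- The components through the four tacnodes: `L_i` and `C_i`. -/
def tang : Fin 4 → Finset (Fin 8) := ![{0, 4}, {1, 5}, {2, 6}, {3, 7}]

/-- The components through the nine quadruple points: `C₁ C₂ L₃ L₄`, three times `C₁ C₂ C₃ C₄`,
`L₁ L₂ C₃ C₄`, `C₁ L₂ L₃ C₄`, `C₁ L₂ C₃ L₄`, `L₁ C₂ L₃ C₄`, `L₁ C₂ C₃ L₄`. -/
def quad : Fin 9 → Finset (Fin 8) :=
  ![{4, 5, 2, 3}, {4, 5, 6, 7}, {4, 5, 6, 7}, {4, 5, 6, 7}, {0, 1, 6, 7}, {4, 1, 2, 7},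
    {4, 1, 6, 3}, {0, 5, 2, 7}, {0, 5, 6, 3}]

/-- The curve with the eight components `K a = 0` has the weak combinatorial type `W`: the
components are four lines and four smooth conics; there are thirteen different points `T i`, `P j`,
and no other point is on two components; the components through `T i` are a line and a conic, which
are tangent at `T i` and have no other common point (a point of type `A₃`); the components
through `P j` are the four components in `quad j`, and their tangent lines are pairwise different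
(an ordinary quadruple point). -/
def HasTypeW (K : Fin 8 → MvPolynomial (Fin 3) ℂ) : Prop :=
  (∀ a, IsSmoothCurve (deg a) (K a)) ∧
  ∃ (T : Fin 4 → Fin 3 → ℂ) (P : Fin 9 → Fin 3 → ℂ),
    (∀ i, T i ≠ 0) ∧ (∀ j, P j ≠ 0) ∧
    (∀ i i', i ≠ i' → ¬ SamePoint (T i) (T i')) ∧
    (∀ j j', j ≠ j' → ¬ SamePoint (P j) (P j')) ∧
    (∀ i j, ¬ SamePoint (T i) (P j)) ∧
    (∀ i a, eval (T i) (K a) = 0 ↔ a ∈ tang i) ∧
    (∀ i, ∀ a ∈ tang i, ∀ b ∈ tang i, a ≠ b → ¬ Transversal (K a) (K b) (T i) ∧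
      ∀ v : Fin 3 → ℂ, v ≠ 0 → eval v (K a) = 0 → eval v (K b) = 0 → SamePoint v (T i)) ∧
    (∀ j a, eval (P j) (K a) = 0 ↔ a ∈ quad j) ∧
    (∀ j, ∀ a ∈ quad j, ∀ b ∈ quad j, a ≠ b → Transversal (K a) (K b) (P j)) ∧
    ∀ a b, a ≠ b → ∀ v : Fin 3 → ℂ, v ≠ 0 → eval v (K a) = 0 → eval v (K b) = 0 →
      (∃ i, SamePoint v (T i)) ∨ ∃ j, SamePoint v (P j)

end Pool.Agent.Q82.CL
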