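import Pool.Agent.Q82.CL.Sing

/-!
# A weak combinatorial type of four lines and four conics: end of the proof
-/

set_option autoImplicit false
set_option linter.all false

open MvPolynomial

namespace Pool.Agent.Q82.CL

lemma tpt_ne (i : Fin 4) : tpt i ≠ 0 := by
  intro h
  have h0 : tpt i 0 = 0 ∧ tpt i 1 = 0 ∧ tpt i 2 = 0 := by rw [h]; exact ⟨rfl, rfl, rfl⟩
  revert h0
  clear h
  fin_cases i <;> simp only [tpt, Matrix.cons_val, Fin.reduceFinMk, Fin.mk_one, Fin.zero_eta] <;>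
    norm_num [Complex.ext_iff]

lemma qpt_ne (j : Fin 9) : qpt j ≠ 0 := by
  intro h
  have h0 : qpt j 0 = 0 ∧ qpt j 1 = 0 ∧ qpt j 2 = 0 := by rw [h]; exact ⟨rfl, rfl, rfl⟩
  revert h0
  clear h
  fin_cases j <;> simp only [qpt, Matrix.cons_val, Fin.reduceFinMk, Fin.mk_one, Fin.zero_eta] <;>
    norm_num [Complex.ext_iff]

lemma SamePoint.cross {v w : Fin 3 → ℂ} (h : SamePoint v w) (i j : Fin 3) :
    v i * w j = v j * w i := by
  obtain ⟨c, -, rfl⟩ := h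
  simp only [Pi.smul_apply, smul_eq_mul]
  ring

lemma tang_inj : ∀ i i' : Fin 4, i ≠ i' → ∃ a, ¬ (a ∈ tang i ↔ a ∈ tang i') := by decide

lemma quad_tang : ∀ (i : Fin 4) (j : Fin 9), ∃ a, ¬ (a ∈ tang i ↔ a ∈ quad j) := by decide

lemma quad_inj : ∀ j j' : Fin 9, j ≠ j' → (∃ a, ¬ (a ∈ quad j ↔ a ∈ quad j')) ∨
    (j = 1 ∧ j' = 2) ∨ (j = 2 ∧ j' = 1) ∨ (j = 1 ∧ j' = 3) ∨ (j = 3 ∧ j' = 1) ∨
      (j = 2 ∧ j' = 3) ∨ (j = 3 ∧ j' = 2) := by decide

lemma SamePoint.symm {v w : Fin 3 → ℂ} (h : SamePoint v w) : SamePoint w v := by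
  obtain ⟨c, hc, rfl⟩ := h
  exact ⟨c⁻¹, inv_ne_zero hc, by rw [smul_smul, inv_mul_cancel₀ hc, one_smul]⟩

lemma ne12 : ¬ SamePoint (qpt 1) (qpt 2) := by
  intro h
  have := h.cross 0 1
  simp only [qpt, Matrix.cons_val] at this
  norm_num [Complex.ext_iff] at this

lemma ne13 : ¬ SamePoint (qpt 1) (qpt 3) := by
  intro h
  have := h.cross 0 1
  simp only [qpt, Matrix.cons_val] at this
  norm_num [Complex.ext_iff] at this

lemma ne23 : ¬ SamePoint (qpt 2) (qpt 3) := by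
  intro h
  have := h.cross 0 1
  simp only [qpt, Matrix.cons_val] at this
  norm_num [Complex.ext_iff] at this

lemma q_ne (j j' : Fin 9) (hj : j ≠ j') : ¬ SamePoint (qpt j) (qpt j') := by
  intro h
  rcases quad_inj j j' hj with ⟨a, ha⟩ | ⟨rfl, rfl⟩ | ⟨rfl, rfl⟩ | ⟨rfl, rfl⟩ | ⟨rfl, rfl⟩ |
    ⟨rfl, rfl⟩ | ⟨rfl, rfl⟩
  · exact ha ((qval j a).symm.trans ((h.vanish a).trans (qval j' a)))
  · exact ne12 h
  · exact ne12 h.symm
  · exact ne13 h
  · exact ne13 h.symm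
  · exact ne23 h
  · exact ne23 h.symm

lemma tang_mem : ∀ (i : Fin 4) (a b : Fin 8), a ∈ tang i → b ∈ tang i → a ≠ b →
    (a.val = i.val ∧ b.val = i.val + 4) ∨ (b.val = i.val ∧ a.val = i.val + 4) := by decide

lemma ntr' (i : Fin 4) (a b : Fin 8) (h1 : a.val = i.val) (h2 : b.val = i.val + 4) :
    ¬ Transversal (comps a) (comps b) (tpt i) := by
  have key : ∀ i : Fin 4, ¬ Transversal (comps ⟨i.val, by omega⟩) (comps ⟨i.val + 4, by omega⟩)
      (tpt i) := by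
    intro i
    fin_cases i
    · exact nt_0
    · exact nt_1
    · exact nt_2
    · exact nt_3
  have e1 : a = ⟨i.val, by omega⟩ := Fin.ext h1
  have e2 : b = ⟨i.val + 4, by omega⟩ := Fin.ext h2
  have := key i
  rwa [← e1, ← e2] at this

lemma ntr (i : Fin 4) (a b : Fin 8) (ha : a ∈ tang i) (hb : b ∈ tang i) (hab : a ≠ b) :
    ¬ Transversal (comps a) (comps b) (tpt i) := by
  rcases tang_mem i a b ha hb hab with ⟨h1, h2⟩ | ⟨h1, h2⟩
  · exact ntr' i a b h1 h2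
  · exact fun h => ntr' i b a h1 h2 h.symm

lemma only (a b : Fin 8) (hab : a ≠ b) (v : Fin 3 → ℂ) (hv : v ≠ 0)
    (h1 : eval v (comps a) = 0) (h2 : eval v (comps b) = 0) :
    (∃ i, SamePoint v (tpt i)) ∨ ∃ j, SamePoint v (qpt j) := by
  rcases lt_or_gt_of_ne hab with h | h
  · exact only_lt a b h v hv h1 h2
  · exact only_lt b a h v hv h2 h1

lemma tang_quad : ∀ (i : Fin 4) (a b : Fin 8), a ∈ tang i → b ∈ tang i → a ≠ b →
    (∀ i' : Fin 4, i' ≠ i → ¬ (a ∈ tang i' ∧ b ∈ tang i')) ∧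
    ∀ j : Fin 9, ¬ (a ∈ quad j ∧ b ∈ quad j) := by decide

lemma tang_only (i : Fin 4) (a b : Fin 8) (ha : a ∈ tang i) (hb : b ∈ tang i) (hab : a ≠ b)
    (v : Fin 3 → ℂ) (hv : v ≠ 0) (h1 : eval v (comps a) = 0) (h2 : eval v (comps b) = 0) :
    SamePoint v (tpt i) := by
  obtain ⟨h3, h4⟩ := tang_quad i a b ha hb hab
  rcases only a b hab v hv h1 h2 with ⟨i', h⟩ | ⟨j, h⟩
  · by_cases hi : i' = i
    · rwa [← hi]
    · exact absurd ⟨(tval i' a).1 ((h.vanish a).1 h1), (tval i' b).1 ((h.vanish b).1 h2)⟩ (h3 i' hi)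
  · exact absurd ⟨(qval j a).1 ((h.vanish a).1 h1), (qval j b).1 ((h.vanish b).1 h2)⟩ (h4 j)

/-- The explicit curve has the weak combinatorial type `W`. -/
theorem comps_typeW : HasTypeW comps := by
  refine ⟨comps_smooth, tpt, qpt, tpt_ne, qpt_ne, ?_, q_ne, ?_, tval, ?_, qval, ?_, only⟩
  · intro i i' hi h
    obtain ⟨a, ha⟩ := tang_inj i i' hi
    exact ha ((tval i a).symm.trans ((h.vanish a).trans (tval i' a)))
  · intro i j h
    obtain ⟨a, ha⟩ := quad_tang i j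
    exact ha ((tval i a).symm.trans ((h.vanish a).trans (qval j a)))
  · intro i a ha b hb hab
    exact ⟨ntr i a b ha hb hab, fun v hv h1 h2 => tang_only i a b ha hb hab v hv h1 h2⟩
  · intro j a ha b hb hab
    rcases lt_or_gt_of_ne hab with h | h
    · exact trans_lt j a b ha hb h
    · exact (trans_lt j b a hb ha h).symm

end Pool.Agent.Q82.CL
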