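import Pool.Agent.Q82.CL.Data

/-!
# A weak combinatorial type of four lines and four conics: the realization
-/

set_option autoImplicit false
set_option linter.all false

open MvPolynomial

namespace Pool.Agent.Q82.CL

lemma eval_lin (a b c : ℂ) (v : Fin 3 → ℂ) :
    eval v (linForm a b c) = a * v 0 + b * v 1 + c * v 2 := by
  simp [linForm]

lemma eval_quad (a b c d e f : ℂ) (v : Fin 3 → ℂ) :
    eval v (quadForm a b c d e f) = a * v 0 ^ 2 + b * (v 0 * v 1) + c * (v 0 * v 2) + d * v 1 ^ 2 +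
      e * (v 1 * v 2) + f * v 2 ^ 2 := by
  simp [quadForm]

lemma d0_lin (a b c : ℂ) (v : Fin 3 → ℂ) : eval v (pderiv 0 (linForm a b c)) = a := by
  simp [linForm, pderiv_X, Pi.single_apply]
lemma d1_lin (a b c : ℂ) (v : Fin 3 → ℂ) : eval v (pderiv 1 (linForm a b c)) = b := by
  simp [linForm, pderiv_X, Pi.single_apply]
lemma d2_lin (a b c : ℂ) (v : Fin 3 → ℂ) : eval v (pderiv 2 (linForm a b c)) = c := by
  simp [linForm, pderiv_X, Pi.single_apply]

lemma d0_quad (a b c d e f : ℂ) (v : Fin 3 → ℂ) :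
    eval v (pderiv 0 (quadForm a b c d e f)) = 2 * a * v 0 + b * v 1 + c * v 2 := by
  simp [quadForm, pderiv_X, Pi.single_apply, Derivation.leibniz, Derivation.leibniz_pow]
  ring
lemma d1_quad (a b c d e f : ℂ) (v : Fin 3 → ℂ) :
    eval v (pderiv 1 (quadForm a b c d e f)) = b * v 0 + 2 * d * v 1 + e * v 2 := by
  simp [quadForm, pderiv_X, Pi.single_apply, Derivation.leibniz, Derivation.leibniz_pow]
  ring
lemma d2_quad (a b c d e f : ℂ) (v : Fin 3 → ℂ) :
    eval v (pderiv 2 (quadForm a b c d e f)) = c * v 0 + e * v 1 + 2 * f * v 2 := by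
  simp [quadForm, pderiv_X, Pi.single_apply, Derivation.leibniz, Derivation.leibniz_pow]
  ring

lemma lin_hom (a b c : ℂ) : (linForm a b c).IsHomogeneous 1 := by
  have h : ∀ (r : ℂ) (i : Fin 3), (C r * X i : MvPolynomial (Fin 3) ℂ).IsHomogeneous 1 :=
    fun r i => by simpa using (isHomogeneous_C (Fin 3) r).mul (isHomogeneous_X ℂ i)
  exact ((h _ _).add (h _ _)).add (h _ _)

lemma quad_hom (a b c d e f : ℂ) : (quadForm a b c d e f).IsHomogeneous 2 := by
  have h : ∀ (r : ℂ) (i j : Fin 3), (C r * (X i * X j) : MvPolynomial (Fin 3) ℂ).IsHomogeneous 2 :=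
    fun r i j => by
      simpa using (isHomogeneous_C (Fin 3) r).mul ((isHomogeneous_X ℂ i).mul (isHomogeneous_X ℂ j))
  have h' : ∀ (r : ℂ) (i : Fin 3), (C r * X i ^ 2 : MvPolynomial (Fin 3) ℂ).IsHomogeneous 2 :=
    fun r i => by
      have := h r i i
      rwa [← pow_two] at this
  exact (((((h' _ _).add (h _ _ _)).add (h _ _ _)).add (h' _ _)).add (h _ _ _)).add (h' _ _)

lemma smooth_lin (a b c : ℂ) (h : ¬ (a = 0 ∧ b = 0 ∧ c = 0)) : IsSmoothCurve 1 (linForm a b c) := by
  have key : ∀ v : Fin 3 → ℂ, ∃ i, eval v (pderiv i (linForm a b c)) ≠ 0 := by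
    intro v
    by_contra hcon
    push Not at hcon
    apply h
    refine ⟨?_, ?_, ?_⟩
    · have := hcon 0
      rwa [d0_lin] at this
    · have := hcon 1
      rwa [d1_lin] at this
    · have := hcon 2
      rwa [d2_lin] at this
  refine ⟨lin_hom a b c, ?_, fun v _ _ => key v⟩
  intro h0
  obtain ⟨i, hi⟩ := key 0
  rw [h0] at hi
  simp at hi

lemma smooth_quad (a b c d e f : ℂ)
    (h : 4 * a * d * f + b * c * e - a * e ^ 2 - d * c ^ 2 - f * b ^ 2 ≠ 0) :
    IsSmoothCurve 2 (quadForm a b c d e f) := by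
  have key : ∀ v : Fin 3 → ℂ, v ≠ 0 → ∃ i, eval v (pderiv i (quadForm a b c d e f)) ≠ 0 := by
    intro v hv
    by_contra hcon
    push Not at hcon
    have h0 := hcon 0
    have h1 := hcon 1
    have h2 := hcon 2
    rw [d0_quad] at h0
    rw [d1_quad] at h1
    rw [d2_quad] at h2
    apply hv
    have e0 : (4 * a * d * f + b * c * e - a * e ^ 2 - d * c ^ 2 - f * b ^ 2) * v 0 = 0 := by
      linear_combination ((4 * d * f - e ^ 2) / 2) * h0 + ((c * e - 2 * b * f) / 2) * h1 +
        ((b * e - 2 * c * d) / 2) * h2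
    have e1 : (4 * a * d * f + b * c * e - a * e ^ 2 - d * c ^ 2 - f * b ^ 2) * v 1 = 0 := by
      linear_combination ((c * e - 2 * b * f) / 2) * h0 + ((4 * a * f - c ^ 2) / 2) * h1 +
        ((b * c - 2 * a * e) / 2) * h2
    have e2 : (4 * a * d * f + b * c * e - a * e ^ 2 - d * c ^ 2 - f * b ^ 2) * v 2 = 0 := by
      linear_combination ((b * e - 2 * c * d) / 2) * h0 + ((b * c - 2 * a * e) / 2) * h1 +
        ((4 * a * d - b ^ 2) / 2) * h2
    ext i
    fin_cases i
    · exact (mul_eq_zero.1 e0).resolve_left h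
    · exact (mul_eq_zero.1 e1).resolve_left h
    · exact (mul_eq_zero.1 e2).resolve_left h
  refine ⟨quad_hom a b c d e f, ?_, fun v hv _ => key v hv⟩
  intro h0
  obtain ⟨i, hi⟩ := key ![1, 0, 0] (by intro h; simpa using congrFun h 0)
  rw [h0] at hi
  simp at hi

lemma comps_smooth (a : Fin 8) : IsSmoothCurve (deg a) (comps a) := by
  fin_cases a
  · exact smooth_lin _ _ _ (by norm_num)
  · exact smooth_lin _ _ _ (by norm_num)
  · exact smooth_lin _ _ _ (by norm_num)
  · exact smooth_lin _ _ _ (by norm_num)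
  · exact smooth_quad _ _ _ _ _ _ (by norm_num [Complex.ext_iff, pow_two])
  · exact smooth_quad _ _ _ _ _ _ (by norm_num [Complex.ext_iff, pow_two])
  · exact smooth_quad _ _ _ _ _ _ (by norm_num [Complex.ext_iff, pow_two])
  · exact smooth_quad _ _ _ _ _ _ (by norm_num [Complex.ext_iff, pow_two])

lemma eval_smul_lin (a b c s : ℂ) (v : Fin 3 → ℂ) :
    eval (s • v) (linForm a b c) = s * eval v (linForm a b c) := by
  simp only [eval_lin, Pi.smul_apply, smul_eq_mul]
  ring

lemma eval_smul_quad (a b c d e f s : ℂ) (v : Fin 3 → ℂ) :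
    eval (s • v) (quadForm a b c d e f) = s ^ 2 * eval v (quadForm a b c d e f) := by
  simp only [eval_quad, Pi.smul_apply, smul_eq_mul]
  ring

lemma SamePoint.vanish {v w : Fin 3 → ℂ} (h : SamePoint v w) (a : Fin 8) :
    eval v (comps a) = 0 ↔ eval w (comps a) = 0 := by
  obtain ⟨s, hs, rfl⟩ := h
  fin_cases a <;> simp only [comps, Matrix.cons_val, Fin.reduceFinMk, Fin.mk_one, Fin.zero_eta] <;>
    simp [eval_smul_lin, eval_smul_quad, hs]

end Pool.Agent.Q82.CL
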