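import Pool.Agent.Q82.CL.Main

/-!
# A weak combinatorial type of four lines and four conics: the singular points
-/

set_option autoImplicit false
set_option linter.all false

open MvPolynomial

namespace Pool.Agent.Q82.CL


lemma tval (i : Fin 4) (a : Fin 8) : eval (tpt i) (comps a) = 0 ↔ a ∈ tang i := by
  fin_cases i <;> fin_cases a <;>
    simp only [comps, tpt, tang, Matrix.cons_val, Fin.reduceFinMk, Fin.mk_one, Fin.zero_eta,
      eval_lin, eval_quad, Finset.mem_insert, Finset.mem_singleton] <;>
    norm_num [Complex.ext_iff, pow_two] <;> decide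

lemma qval (j : Fin 9) (a : Fin 8) : eval (qpt j) (comps a) = 0 ↔ a ∈ quad j := by
  fin_cases j <;> fin_cases a <;>
    simp only [comps, qpt, quad, Matrix.cons_val, Fin.reduceFinMk, Fin.mk_one, Fin.zero_eta,
      eval_lin, eval_quad, Finset.mem_insert, Finset.mem_singleton] <;>
    norm_num [Complex.ext_iff, pow_two] <;> decide

lemma Transversal.symm {F G : MvPolynomial (Fin 3) ℂ} {v : Fin 3 → ℂ} (h : Transversal F G v) :
    Transversal G F v := by
  obtain ⟨i, j, h⟩ := h
  exact ⟨i, j, fun h' => h (by linear_combination -h')⟩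

lemma tr_0_2_3 : Transversal (comps 2) (comps 3) (qpt 0) := by
  refine ⟨0, 2, ?_⟩
  simp only [comps, qpt, Matrix.cons_val, d0_lin, d1_lin, d2_lin, d0_quad, d1_quad, d2_quad]
  norm_num [Complex.ext_iff]

lemma tr_0_2_4 : Transversal (comps 2) (comps 4) (qpt 0) := by
  refine ⟨0, 2, ?_⟩
  simp only [comps, qpt, Matrix.cons_val, d0_lin, d1_lin, d2_lin, d0_quad, d1_quad, d2_quad]
  norm_num [Complex.ext_iff]

lemma tr_0_2_5 : Transversal (comps 2) (comps 5) (qpt 0) := by
  refine ⟨0, 2, ?_⟩
  simp only [comps, qpt, Matrix.cons_val, d0_lin, d1_lin, d2_lin, d0_quad, d1_quad, d2_quad]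
  norm_num [Complex.ext_iff]

lemma tr_0_3_4 : Transversal (comps 3) (comps 4) (qpt 0) := by
  refine ⟨0, 2, ?_⟩
  simp only [comps, qpt, Matrix.cons_val, d0_lin, d1_lin, d2_lin, d0_quad, d1_quad, d2_quad]
  norm_num [Complex.ext_iff]

lemma tr_0_3_5 : Transversal (comps 3) (comps 5) (qpt 0) := by
  refine ⟨0, 2, ?_⟩
  simp only [comps, qpt, Matrix.cons_val, d0_lin, d1_lin, d2_lin, d0_quad, d1_quad, d2_quad]
  norm_num [Complex.ext_iff]

lemma tr_0_4_5 : Transversal (comps 4) (comps 5) (qpt 0) := by
  refine ⟨0, 2, ?_⟩
  simp only [comps, qpt, Matrix.cons_val, d0_lin, d1_lin, d2_lin, d0_quad, d1_quad, d2_quad]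
  norm_num [Complex.ext_iff]

lemma tr_1_4_5 : Transversal (comps 4) (comps 5) (qpt 1) := by
  refine ⟨0, 1, ?_⟩
  simp only [comps, qpt, Matrix.cons_val, d0_lin, d1_lin, d2_lin, d0_quad, d1_quad, d2_quad]
  norm_num [Complex.ext_iff]

lemma tr_1_4_6 : Transversal (comps 4) (comps 6) (qpt 1) := by
  refine ⟨0, 1, ?_⟩
  simp only [comps, qpt, Matrix.cons_val, d0_lin, d1_lin, d2_lin, d0_quad, d1_quad, d2_quad]
  norm_num [Complex.ext_iff]

lemma tr_1_4_7 : Transversal (comps 4) (comps 7) (qpt 1) := by
  refine ⟨0, 1, ?_⟩
  simp only [comps, qpt, Matrix.cons_val, d0_lin, d1_lin, d2_lin, d0_quad, d1_quad, d2_quad]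
  norm_num [Complex.ext_iff]

lemma tr_1_5_6 : Transversal (comps 5) (comps 6) (qpt 1) := by
  refine ⟨0, 1, ?_⟩
  simp only [comps, qpt, Matrix.cons_val, d0_lin, d1_lin, d2_lin, d0_quad, d1_quad, d2_quad]
  norm_num [Complex.ext_iff]

lemma tr_1_5_7 : Transversal (comps 5) (comps 7) (qpt 1) := by
  refine ⟨0, 1, ?_⟩
  simp only [comps, qpt, Matrix.cons_val, d0_lin, d1_lin, d2_lin, d0_quad, d1_quad, d2_quad]
  norm_num [Complex.ext_iff]

lemma tr_1_6_7 : Transversal (comps 6) (comps 7) (qpt 1) := by
  refine ⟨0, 1, ?_⟩
  simp only [comps, qpt, Matrix.cons_val, d0_lin, d1_lin, d2_lin, d0_quad, d1_quad, d2_quad]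
  norm_num [Complex.ext_iff]

lemma tr_2_4_5 : Transversal (comps 4) (comps 5) (qpt 2) := by
  refine ⟨0, 1, ?_⟩
  simp only [comps, qpt, Matrix.cons_val, d0_lin, d1_lin, d2_lin, d0_quad, d1_quad, d2_quad]
  norm_num [Complex.ext_iff]

lemma tr_2_4_6 : Transversal (comps 4) (comps 6) (qpt 2) := by
  refine ⟨0, 1, ?_⟩
  simp only [comps, qpt, Matrix.cons_val, d0_lin, d1_lin, d2_lin, d0_quad, d1_quad, d2_quad]
  norm_num [Complex.ext_iff]

lemma tr_2_4_7 : Transversal (comps 4) (comps 7) (qpt 2) := by
  refine ⟨0, 1, ?_⟩
  simp only [comps, qpt, Matrix.cons_val, d0_lin, d1_lin, d2_lin, d0_quad, d1_quad, d2_quad]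
  norm_num [Complex.ext_iff]

lemma tr_2_5_6 : Transversal (comps 5) (comps 6) (qpt 2) := by
  refine ⟨0, 1, ?_⟩
  simp only [comps, qpt, Matrix.cons_val, d0_lin, d1_lin, d2_lin, d0_quad, d1_quad, d2_quad]
  norm_num [Complex.ext_iff]

lemma tr_2_5_7 : Transversal (comps 5) (comps 7) (qpt 2) := by
  refine ⟨0, 1, ?_⟩
  simp only [comps, qpt, Matrix.cons_val, d0_lin, d1_lin, d2_lin, d0_quad, d1_quad, d2_quad]
  norm_num [Complex.ext_iff]

lemma tr_2_6_7 : Transversal (comps 6) (comps 7) (qpt 2) := by
  refine ⟨0, 1, ?_⟩
  simp only [comps, qpt, Matrix.cons_val, d0_lin, d1_lin, d2_lin, d0_quad, d1_quad, d2_quad]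
  norm_num [Complex.ext_iff]

lemma tr_3_4_5 : Transversal (comps 4) (comps 5) (qpt 3) := by
  refine ⟨0, 1, ?_⟩
  simp only [comps, qpt, Matrix.cons_val, d0_lin, d1_lin, d2_lin, d0_quad, d1_quad, d2_quad]
  norm_num [Complex.ext_iff]

lemma tr_3_4_6 : Transversal (comps 4) (comps 6) (qpt 3) := by
  refine ⟨0, 1, ?_⟩
  simp only [comps, qpt, Matrix.cons_val, d0_lin, d1_lin, d2_lin, d0_quad, d1_quad, d2_quad]
  norm_num [Complex.ext_iff]

lemma tr_3_4_7 : Transversal (comps 4) (comps 7) (qpt 3) := by
  refine ⟨0, 1, ?_⟩
  simp only [comps, qpt, Matrix.cons_val, d0_lin, d1_lin, d2_lin, d0_quad, d1_quad, d2_quad]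
  norm_num [Complex.ext_iff]

lemma tr_3_5_6 : Transversal (comps 5) (comps 6) (qpt 3) := by
  refine ⟨0, 1, ?_⟩
  simp only [comps, qpt, Matrix.cons_val, d0_lin, d1_lin, d2_lin, d0_quad, d1_quad, d2_quad]
  norm_num [Complex.ext_iff]

lemma tr_3_5_7 : Transversal (comps 5) (comps 7) (qpt 3) := by
  refine ⟨0, 1, ?_⟩
  simp only [comps, qpt, Matrix.cons_val, d0_lin, d1_lin, d2_lin, d0_quad, d1_quad, d2_quad]
  norm_num [Complex.ext_iff]

lemma tr_3_6_7 : Transversal (comps 6) (comps 7) (qpt 3) := by
  refine ⟨0, 1, ?_⟩
  simp only [comps, qpt, Matrix.cons_val, d0_lin, d1_lin, d2_lin, d0_quad, d1_quad, d2_quad]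
  norm_num [Complex.ext_iff]

lemma tr_4_0_1 : Transversal (comps 0) (comps 1) (qpt 4) := by
  refine ⟨0, 1, ?_⟩
  simp only [comps, qpt, Matrix.cons_val, d0_lin, d1_lin, d2_lin, d0_quad, d1_quad, d2_quad]
  norm_num [Complex.ext_iff]

lemma tr_4_0_6 : Transversal (comps 0) (comps 6) (qpt 4) := by
  refine ⟨0, 1, ?_⟩
  simp only [comps, qpt, Matrix.cons_val, d0_lin, d1_lin, d2_lin, d0_quad, d1_quad, d2_quad]
  norm_num [Complex.ext_iff]

lemma tr_4_0_7 : Transversal (comps 0) (comps 7) (qpt 4) := by
  refine ⟨0, 1, ?_⟩
  simp only [comps, qpt, Matrix.cons_val, d0_lin, d1_lin, d2_lin, d0_quad, d1_quad, d2_quad]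
  norm_num [Complex.ext_iff]

lemma tr_4_1_6 : Transversal (comps 1) (comps 6) (qpt 4) := by
  refine ⟨0, 1, ?_⟩
  simp only [comps, qpt, Matrix.cons_val, d0_lin, d1_lin, d2_lin, d0_quad, d1_quad, d2_quad]
  norm_num [Complex.ext_iff]

lemma tr_4_1_7 : Transversal (comps 1) (comps 7) (qpt 4) := by
  refine ⟨0, 1, ?_⟩
  simp only [comps, qpt, Matrix.cons_val, d0_lin, d1_lin, d2_lin, d0_quad, d1_quad, d2_quad]
  norm_num [Complex.ext_iff]

lemma tr_4_6_7 : Transversal (comps 6) (comps 7) (qpt 4) := by
  refine ⟨0, 1, ?_⟩
  simp only [comps, qpt, Matrix.cons_val, d0_lin, d1_lin, d2_lin, d0_quad, d1_quad, d2_quad]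
  norm_num [Complex.ext_iff]

lemma tr_5_1_2 : Transversal (comps 1) (comps 2) (qpt 5) := by
  refine ⟨1, 2, ?_⟩
  simp only [comps, qpt, Matrix.cons_val, d0_lin, d1_lin, d2_lin, d0_quad, d1_quad, d2_quad]
  norm_num [Complex.ext_iff]

lemma tr_5_1_4 : Transversal (comps 1) (comps 4) (qpt 5) := by
  refine ⟨1, 2, ?_⟩
  simp only [comps, qpt, Matrix.cons_val, d0_lin, d1_lin, d2_lin, d0_quad, d1_quad, d2_quad]
  norm_num [Complex.ext_iff]

lemma tr_5_1_7 : Transversal (comps 1) (comps 7) (qpt 5) := by
  refine ⟨1, 2, ?_⟩
  simp only [comps, qpt, Matrix.cons_val, d0_lin, d1_lin, d2_lin, d0_quad, d1_quad, d2_quad]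
  norm_num [Complex.ext_iff]

lemma tr_5_2_4 : Transversal (comps 2) (comps 4) (qpt 5) := by
  refine ⟨1, 2, ?_⟩
  simp only [comps, qpt, Matrix.cons_val, d0_lin, d1_lin, d2_lin, d0_quad, d1_quad, d2_quad]
  norm_num [Complex.ext_iff]

lemma tr_5_2_7 : Transversal (comps 2) (comps 7) (qpt 5) := by
  refine ⟨1, 2, ?_⟩
  simp only [comps, qpt, Matrix.cons_val, d0_lin, d1_lin, d2_lin, d0_quad, d1_quad, d2_quad]
  norm_num [Complex.ext_iff]

lemma tr_5_4_7 : Transversal (comps 4) (comps 7) (qpt 5) := by
  refine ⟨1, 2, ?_⟩
  simp only [comps, qpt, Matrix.cons_val, d0_lin, d1_lin, d2_lin, d0_quad, d1_quad, d2_quad]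
  norm_num [Complex.ext_iff]

lemma tr_6_1_3 : Transversal (comps 1) (comps 3) (qpt 6) := by
  refine ⟨0, 1, ?_⟩
  simp only [comps, qpt, Matrix.cons_val, d0_lin, d1_lin, d2_lin, d0_quad, d1_quad, d2_quad]
  norm_num [Complex.ext_iff]

lemma tr_6_1_4 : Transversal (comps 1) (comps 4) (qpt 6) := by
  refine ⟨0, 1, ?_⟩
  simp only [comps, qpt, Matrix.cons_val, d0_lin, d1_lin, d2_lin, d0_quad, d1_quad, d2_quad]
  norm_num [Complex.ext_iff]

lemma tr_6_1_6 : Transversal (comps 1) (comps 6) (qpt 6) := by
  refine ⟨0, 1, ?_⟩
  simp only [comps, qpt, Matrix.cons_val, d0_lin, d1_lin, d2_lin, d0_quad, d1_quad, d2_quad]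
  norm_num [Complex.ext_iff]

lemma tr_6_3_4 : Transversal (comps 3) (comps 4) (qpt 6) := by
  refine ⟨0, 1, ?_⟩
  simp only [comps, qpt, Matrix.cons_val, d0_lin, d1_lin, d2_lin, d0_quad, d1_quad, d2_quad]
  norm_num [Complex.ext_iff]

lemma tr_6_3_6 : Transversal (comps 3) (comps 6) (qpt 6) := by
  refine ⟨0, 1, ?_⟩
  simp only [comps, qpt, Matrix.cons_val, d0_lin, d1_lin, d2_lin, d0_quad, d1_quad, d2_quad]
  norm_num [Complex.ext_iff]

lemma tr_6_4_6 : Transversal (comps 4) (comps 6) (qpt 6) := by
  refine ⟨0, 1, ?_⟩
  simp only [comps, qpt, Matrix.cons_val, d0_lin, d1_lin, d2_lin, d0_quad, d1_quad, d2_quad]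
  norm_num [Complex.ext_iff]

lemma tr_7_0_2 : Transversal (comps 0) (comps 2) (qpt 7) := by
  refine ⟨0, 2, ?_⟩
  simp only [comps, qpt, Matrix.cons_val, d0_lin, d1_lin, d2_lin, d0_quad, d1_quad, d2_quad]
  norm_num [Complex.ext_iff]

lemma tr_7_0_5 : Transversal (comps 0) (comps 5) (qpt 7) := by
  refine ⟨0, 2, ?_⟩
  simp only [comps, qpt, Matrix.cons_val, d0_lin, d1_lin, d2_lin, d0_quad, d1_quad, d2_quad]
  norm_num [Complex.ext_iff]

lemma tr_7_0_7 : Transversal (comps 0) (comps 7) (qpt 7) := by
  refine ⟨0, 2, ?_⟩
  simp only [comps, qpt, Matrix.cons_val, d0_lin, d1_lin, d2_lin, d0_quad, d1_quad, d2_quad]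
  norm_num [Complex.ext_iff]

lemma tr_7_2_5 : Transversal (comps 2) (comps 5) (qpt 7) := by
  refine ⟨0, 2, ?_⟩
  simp only [comps, qpt, Matrix.cons_val, d0_lin, d1_lin, d2_lin, d0_quad, d1_quad, d2_quad]
  norm_num [Complex.ext_iff]

lemma tr_7_2_7 : Transversal (comps 2) (comps 7) (qpt 7) := by
  refine ⟨0, 2, ?_⟩
  simp only [comps, qpt, Matrix.cons_val, d0_lin, d1_lin, d2_lin, d0_quad, d1_quad, d2_quad]
  norm_num [Complex.ext_iff]

lemma tr_7_5_7 : Transversal (comps 5) (comps 7) (qpt 7) := by
  refine ⟨0, 2, ?_⟩
  simp only [comps, qpt, Matrix.cons_val, d0_lin, d1_lin, d2_lin, d0_quad, d1_quad, d2_quad]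
  norm_num [Complex.ext_iff]

lemma tr_8_0_3 : Transversal (comps 0) (comps 3) (qpt 8) := by
  refine ⟨0, 1, ?_⟩
  simp only [comps, qpt, Matrix.cons_val, d0_lin, d1_lin, d2_lin, d0_quad, d1_quad, d2_quad]
  norm_num [Complex.ext_iff]

lemma tr_8_0_5 : Transversal (comps 0) (comps 5) (qpt 8) := by
  refine ⟨0, 1, ?_⟩
  simp only [comps, qpt, Matrix.cons_val, d0_lin, d1_lin, d2_lin, d0_quad, d1_quad, d2_quad]
  norm_num [Complex.ext_iff]

lemma tr_8_0_6 : Transversal (comps 0) (comps 6) (qpt 8) := by
  refine ⟨0, 1, ?_⟩
  simp only [comps, qpt, Matrix.cons_val, d0_lin, d1_lin, d2_lin, d0_quad, d1_quad, d2_quad]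
  norm_num [Complex.ext_iff]

lemma tr_8_3_5 : Transversal (comps 3) (comps 5) (qpt 8) := by
  refine ⟨0, 1, ?_⟩
  simp only [comps, qpt, Matrix.cons_val, d0_lin, d1_lin, d2_lin, d0_quad, d1_quad, d2_quad]
  norm_num [Complex.ext_iff]

lemma tr_8_3_6 : Transversal (comps 3) (comps 6) (qpt 8) := by
  refine ⟨0, 1, ?_⟩
  simp only [comps, qpt, Matrix.cons_val, d0_lin, d1_lin, d2_lin, d0_quad, d1_quad, d2_quad]
  norm_num [Complex.ext_iff]

lemma tr_8_5_6 : Transversal (comps 5) (comps 6) (qpt 8) := by
  refine ⟨0, 1, ?_⟩
  simp only [comps, qpt, Matrix.cons_val, d0_lin, d1_lin, d2_lin, d0_quad, d1_quad, d2_quad]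
  norm_num [Complex.ext_iff]

lemma nt_0 : ¬ Transversal (comps 0) (comps 4) (tpt 0) := by
  rintro ⟨m, n, h⟩
  apply h
  fin_cases m <;> fin_cases n <;>
    simp only [comps, tpt, Matrix.cons_val, Fin.reduceFinMk, Fin.mk_one, Fin.zero_eta, d0_lin, d1_lin, d2_lin, d0_quad, d1_quad, d2_quad] <;>
    norm_num [Complex.ext_iff]

lemma nt_1 : ¬ Transversal (comps 1) (comps 5) (tpt 1) := by
  rintro ⟨m, n, h⟩
  apply h
  fin_cases m <;> fin_cases n <;>
    simp only [comps, tpt, Matrix.cons_val, Fin.reduceFinMk, Fin.mk_one, Fin.zero_eta, d0_lin, d1_lin, d2_lin, d0_quad, d1_quad, d2_quad] <;>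
    norm_num [Complex.ext_iff]

lemma nt_2 : ¬ Transversal (comps 2) (comps 6) (tpt 2) := by
  rintro ⟨m, n, h⟩
  apply h
  fin_cases m <;> fin_cases n <;>
    simp only [comps, tpt, Matrix.cons_val, Fin.reduceFinMk, Fin.mk_one, Fin.zero_eta, d0_lin, d1_lin, d2_lin, d0_quad, d1_quad, d2_quad] <;>
    norm_num [Complex.ext_iff]

lemma nt_3 : ¬ Transversal (comps 3) (comps 7) (tpt 3) := by
  rintro ⟨m, n, h⟩
  apply h
  fin_cases m <;> fin_cases n <;>
    simp only [comps, tpt, Matrix.cons_val, Fin.reduceFinMk, Fin.mk_one, Fin.zero_eta, d0_lin, d1_lin, d2_lin, d0_quad, d1_quad, d2_quad] <;>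
    norm_num [Complex.ext_iff]

lemma op_0_1 (v : Fin 3 → ℂ) (hv : v ≠ 0) (h1 : eval v (comps 0) = 0)
    (h2 : eval v (comps 1) = 0) : (∃ i, SamePoint v (tpt i)) ∨ ∃ j, SamePoint v (qpt j) := by
  have e : v = ![v 0, v 1, v 2] := by
    ext i
    fin_cases i <;> rfl
  rw [e] at hv ⊢
  simp only [comps, Matrix.cons_val, eval_lin, eval_quad] at h1 h2
  exact pair_0_1 hv (by linear_combination h1) (by linear_combination h2)

lemma op_0_2 (v : Fin 3 → ℂ) (hv : v ≠ 0) (h1 : eval v (comps 0) = 0)
    (h2 : eval v (comps 2) = 0) : (∃ i, SamePoint v (tpt i)) ∨ ∃ j, SamePoint v (qpt j) := by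
  have e : v = ![v 0, v 1, v 2] := by
    ext i
    fin_cases i <;> rfl
  rw [e] at hv ⊢
  simp only [comps, Matrix.cons_val, eval_lin, eval_quad] at h1 h2
  exact pair_0_2 hv (by linear_combination h1) (by linear_combination h2)

lemma op_0_3 (v : Fin 3 → ℂ) (hv : v ≠ 0) (h1 : eval v (comps 0) = 0)
    (h2 : eval v (comps 3) = 0) : (∃ i, SamePoint v (tpt i)) ∨ ∃ j, SamePoint v (qpt j) := by
  have e : v = ![v 0, v 1, v 2] := by
    ext i
    fin_cases i <;> rfl
  rw [e] at hv ⊢
  simp only [comps, Matrix.cons_val, eval_lin, eval_quad] at h1 h2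
  exact pair_0_3 hv (by linear_combination h1) (by linear_combination h2)

lemma op_0_4 (v : Fin 3 → ℂ) (hv : v ≠ 0) (h1 : eval v (comps 0) = 0)
    (h2 : eval v (comps 4) = 0) : (∃ i, SamePoint v (tpt i)) ∨ ∃ j, SamePoint v (qpt j) := by
  have e : v = ![v 0, v 1, v 2] := by
    ext i
    fin_cases i <;> rfl
  rw [e] at hv ⊢
  simp only [comps, Matrix.cons_val, eval_lin, eval_quad] at h1 h2
  exact pair_0_4 hv (by linear_combination h1) (by linear_combination h2)

lemma op_0_5 (v : Fin 3 → ℂ) (hv : v ≠ 0) (h1 : eval v (comps 0) = 0)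
    (h2 : eval v (comps 5) = 0) : (∃ i, SamePoint v (tpt i)) ∨ ∃ j, SamePoint v (qpt j) := by
  have e : v = ![v 0, v 1, v 2] := by
    ext i
    fin_cases i <;> rfl
  rw [e] at hv ⊢
  simp only [comps, Matrix.cons_val, eval_lin, eval_quad] at h1 h2
  exact pair_0_5 hv (by linear_combination h1) (by linear_combination h2)

lemma op_0_6 (v : Fin 3 → ℂ) (hv : v ≠ 0) (h1 : eval v (comps 0) = 0)
    (h2 : eval v (comps 6) = 0) : (∃ i, SamePoint v (tpt i)) ∨ ∃ j, SamePoint v (qpt j) := by
  have e : v = ![v 0, v 1, v 2] := by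
    ext i
    fin_cases i <;> rfl
  rw [e] at hv ⊢
  simp only [comps, Matrix.cons_val, eval_lin, eval_quad] at h1 h2
  exact pair_0_6 hv (by linear_combination h1) (by linear_combination h2)

lemma op_0_7 (v : Fin 3 → ℂ) (hv : v ≠ 0) (h1 : eval v (comps 0) = 0)
    (h2 : eval v (comps 7) = 0) : (∃ i, SamePoint v (tpt i)) ∨ ∃ j, SamePoint v (qpt j) := by
  have e : v = ![v 0, v 1, v 2] := by
    ext i
    fin_cases i <;> rfl
  rw [e] at hv ⊢
  simp only [comps, Matrix.cons_val, eval_lin, eval_quad] at h1 h2
  exact pair_0_7 hv (by linear_combination h1) (by linear_combination h2)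

lemma op_1_2 (v : Fin 3 → ℂ) (hv : v ≠ 0) (h1 : eval v (comps 1) = 0)
    (h2 : eval v (comps 2) = 0) : (∃ i, SamePoint v (tpt i)) ∨ ∃ j, SamePoint v (qpt j) := by
  have e : v = ![v 0, v 1, v 2] := by
    ext i
    fin_cases i <;> rfl
  rw [e] at hv ⊢
  simp only [comps, Matrix.cons_val, eval_lin, eval_quad] at h1 h2
  exact pair_1_2 hv (by linear_combination h1) (by linear_combination h2)

lemma op_1_3 (v : Fin 3 → ℂ) (hv : v ≠ 0) (h1 : eval v (comps 1) = 0)
    (h2 : eval v (comps 3) = 0) : (∃ i, SamePoint v (tpt i)) ∨ ∃ j, SamePoint v (qpt j) := by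
  have e : v = ![v 0, v 1, v 2] := by
    ext i
    fin_cases i <;> rfl
  rw [e] at hv ⊢
  simp only [comps, Matrix.cons_val, eval_lin, eval_quad] at h1 h2
  exact pair_1_3 hv (by linear_combination h1) (by linear_combination h2)

lemma op_1_4 (v : Fin 3 → ℂ) (hv : v ≠ 0) (h1 : eval v (comps 1) = 0)
    (h2 : eval v (comps 4) = 0) : (∃ i, SamePoint v (tpt i)) ∨ ∃ j, SamePoint v (qpt j) := by
  have e : v = ![v 0, v 1, v 2] := by
    ext i
    fin_cases i <;> rfl
  rw [e] at hv ⊢
  simp only [comps, Matrix.cons_val, eval_lin, eval_quad] at h1 h2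
  exact pair_1_4 hv (by linear_combination h1) (by linear_combination h2)

lemma op_1_5 (v : Fin 3 → ℂ) (hv : v ≠ 0) (h1 : eval v (comps 1) = 0)
    (h2 : eval v (comps 5) = 0) : (∃ i, SamePoint v (tpt i)) ∨ ∃ j, SamePoint v (qpt j) := by
  have e : v = ![v 0, v 1, v 2] := by
    ext i
    fin_cases i <;> rfl
  rw [e] at hv ⊢
  simp only [comps, Matrix.cons_val, eval_lin, eval_quad] at h1 h2
  exact pair_1_5 hv (by linear_combination h1) (by linear_combination h2)

lemma op_1_6 (v : Fin 3 → ℂ) (hv : v ≠ 0) (h1 : eval v (comps 1) = 0)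
    (h2 : eval v (comps 6) = 0) : (∃ i, SamePoint v (tpt i)) ∨ ∃ j, SamePoint v (qpt j) := by
  have e : v = ![v 0, v 1, v 2] := by
    ext i
    fin_cases i <;> rfl
  rw [e] at hv ⊢
  simp only [comps, Matrix.cons_val, eval_lin, eval_quad] at h1 h2
  exact pair_1_6 hv (by linear_combination h1) (by linear_combination h2)

lemma op_1_7 (v : Fin 3 → ℂ) (hv : v ≠ 0) (h1 : eval v (comps 1) = 0)
    (h2 : eval v (comps 7) = 0) : (∃ i, SamePoint v (tpt i)) ∨ ∃ j, SamePoint v (qpt j) := by
  have e : v = ![v 0, v 1, v 2] := by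
    ext i
    fin_cases i <;> rfl
  rw [e] at hv ⊢
  simp only [comps, Matrix.cons_val, eval_lin, eval_quad] at h1 h2
  exact pair_1_7 hv (by linear_combination h1) (by linear_combination h2)

lemma op_2_3 (v : Fin 3 → ℂ) (hv : v ≠ 0) (h1 : eval v (comps 2) = 0)
    (h2 : eval v (comps 3) = 0) : (∃ i, SamePoint v (tpt i)) ∨ ∃ j, SamePoint v (qpt j) := by
  have e : v = ![v 0, v 1, v 2] := by
    ext i
    fin_cases i <;> rfl
  rw [e] at hv ⊢
  simp only [comps, Matrix.cons_val, eval_lin, eval_quad] at h1 h2
  exact pair_2_3 hv (by linear_combination h1) (by linear_combination h2)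

lemma op_2_4 (v : Fin 3 → ℂ) (hv : v ≠ 0) (h1 : eval v (comps 2) = 0)
    (h2 : eval v (comps 4) = 0) : (∃ i, SamePoint v (tpt i)) ∨ ∃ j, SamePoint v (qpt j) := by
  have e : v = ![v 0, v 1, v 2] := by
    ext i
    fin_cases i <;> rfl
  rw [e] at hv ⊢
  simp only [comps, Matrix.cons_val, eval_lin, eval_quad] at h1 h2
  exact pair_2_4 hv (by linear_combination h1) (by linear_combination h2)

lemma op_2_5 (v : Fin 3 → ℂ) (hv : v ≠ 0) (h1 : eval v (comps 2) = 0)
    (h2 : eval v (comps 5) = 0) : (∃ i, SamePoint v (tpt i)) ∨ ∃ j, SamePoint v (qpt j) := by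
  have e : v = ![v 0, v 1, v 2] := by
    ext i
    fin_cases i <;> rfl
  rw [e] at hv ⊢
  simp only [comps, Matrix.cons_val, eval_lin, eval_quad] at h1 h2
  exact pair_2_5 hv (by linear_combination h1) (by linear_combination h2)

lemma op_2_6 (v : Fin 3 → ℂ) (hv : v ≠ 0) (h1 : eval v (comps 2) = 0)
    (h2 : eval v (comps 6) = 0) : (∃ i, SamePoint v (tpt i)) ∨ ∃ j, SamePoint v (qpt j) := by
  have e : v = ![v 0, v 1, v 2] := by
    ext i
    fin_cases i <;> rfl
  rw [e] at hv ⊢
  simp only [comps, Matrix.cons_val, eval_lin, eval_quad] at h1 h2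
  exact pair_2_6 hv (by linear_combination h1) (by linear_combination h2)

lemma op_2_7 (v : Fin 3 → ℂ) (hv : v ≠ 0) (h1 : eval v (comps 2) = 0)
    (h2 : eval v (comps 7) = 0) : (∃ i, SamePoint v (tpt i)) ∨ ∃ j, SamePoint v (qpt j) := by
  have e : v = ![v 0, v 1, v 2] := by
    ext i
    fin_cases i <;> rfl
  rw [e] at hv ⊢
  simp only [comps, Matrix.cons_val, eval_lin, eval_quad] at h1 h2
  exact pair_2_7 hv (by linear_combination h1) (by linear_combination h2)

lemma op_3_4 (v : Fin 3 → ℂ) (hv : v ≠ 0) (h1 : eval v (comps 3) = 0)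
    (h2 : eval v (comps 4) = 0) : (∃ i, SamePoint v (tpt i)) ∨ ∃ j, SamePoint v (qpt j) := by
  have e : v = ![v 0, v 1, v 2] := by
    ext i
    fin_cases i <;> rfl
  rw [e] at hv ⊢
  simp only [comps, Matrix.cons_val, eval_lin, eval_quad] at h1 h2
  exact pair_3_4 hv (by linear_combination h1) (by linear_combination h2)

lemma op_3_5 (v : Fin 3 → ℂ) (hv : v ≠ 0) (h1 : eval v (comps 3) = 0)
    (h2 : eval v (comps 5) = 0) : (∃ i, SamePoint v (tpt i)) ∨ ∃ j, SamePoint v (qpt j) := by
  have e : v = ![v 0, v 1, v 2] := by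
    ext i
    fin_cases i <;> rfl
  rw [e] at hv ⊢
  simp only [comps, Matrix.cons_val, eval_lin, eval_quad] at h1 h2
  exact pair_3_5 hv (by linear_combination h1) (by linear_combination h2)

lemma op_3_6 (v : Fin 3 → ℂ) (hv : v ≠ 0) (h1 : eval v (comps 3) = 0)
    (h2 : eval v (comps 6) = 0) : (∃ i, SamePoint v (tpt i)) ∨ ∃ j, SamePoint v (qpt j) := by
  have e : v = ![v 0, v 1, v 2] := by
    ext i
    fin_cases i <;> rfl
  rw [e] at hv ⊢
  simp only [comps, Matrix.cons_val, eval_lin, eval_quad] at h1 h2
  exact pair_3_6 hv (by linear_combination h1) (by linear_combination h2)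

lemma op_3_7 (v : Fin 3 → ℂ) (hv : v ≠ 0) (h1 : eval v (comps 3) = 0)
    (h2 : eval v (comps 7) = 0) : (∃ i, SamePoint v (tpt i)) ∨ ∃ j, SamePoint v (qpt j) := by
  have e : v = ![v 0, v 1, v 2] := by
    ext i
    fin_cases i <;> rfl
  rw [e] at hv ⊢
  simp only [comps, Matrix.cons_val, eval_lin, eval_quad] at h1 h2
  exact pair_3_7 hv (by linear_combination h1) (by linear_combination h2)

lemma op_4_5 (v : Fin 3 → ℂ) (hv : v ≠ 0) (h1 : eval v (comps 4) = 0)
    (h2 : eval v (comps 5) = 0) : (∃ i, SamePoint v (tpt i)) ∨ ∃ j, SamePoint v (qpt j) := by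
  have e : v = ![v 0, v 1, v 2] := by
    ext i
    fin_cases i <;> rfl
  rw [e] at hv ⊢
  simp only [comps, Matrix.cons_val, eval_lin, eval_quad] at h1 h2
  exact pair_4_5 hv (by linear_combination h1) (by linear_combination h2)

lemma op_4_6 (v : Fin 3 → ℂ) (hv : v ≠ 0) (h1 : eval v (comps 4) = 0)
    (h2 : eval v (comps 6) = 0) : (∃ i, SamePoint v (tpt i)) ∨ ∃ j, SamePoint v (qpt j) := by
  have e : v = ![v 0, v 1, v 2] := by
    ext i
    fin_cases i <;> rfl
  rw [e] at hv ⊢
  simp only [comps, Matrix.cons_val, eval_lin, eval_quad] at h1 h2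
  exact pair_4_6 hv (by linear_combination h1) (by linear_combination h2)

lemma op_4_7 (v : Fin 3 → ℂ) (hv : v ≠ 0) (h1 : eval v (comps 4) = 0)
    (h2 : eval v (comps 7) = 0) : (∃ i, SamePoint v (tpt i)) ∨ ∃ j, SamePoint v (qpt j) := by
  have e : v = ![v 0, v 1, v 2] := by
    ext i
    fin_cases i <;> rfl
  rw [e] at hv ⊢
  simp only [comps, Matrix.cons_val, eval_lin, eval_quad] at h1 h2
  exact pair_4_7 hv (by linear_combination h1) (by linear_combination h2)

lemma op_5_6 (v : Fin 3 → ℂ) (hv : v ≠ 0) (h1 : eval v (comps 5) = 0)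
    (h2 : eval v (comps 6) = 0) : (∃ i, SamePoint v (tpt i)) ∨ ∃ j, SamePoint v (qpt j) := by
  have e : v = ![v 0, v 1, v 2] := by
    ext i
    fin_cases i <;> rfl
  rw [e] at hv ⊢
  simp only [comps, Matrix.cons_val, eval_lin, eval_quad] at h1 h2
  exact pair_5_6 hv (by linear_combination h1) (by linear_combination h2)

lemma op_5_7 (v : Fin 3 → ℂ) (hv : v ≠ 0) (h1 : eval v (comps 5) = 0)
    (h2 : eval v (comps 7) = 0) : (∃ i, SamePoint v (tpt i)) ∨ ∃ j, SamePoint v (qpt j) := by
  have e : v = ![v 0, v 1, v 2] := by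
    ext i
    fin_cases i <;> rfl
  rw [e] at hv ⊢
  simp only [comps, Matrix.cons_val, eval_lin, eval_quad] at h1 h2
  exact pair_5_7 hv (by linear_combination h1) (by linear_combination h2)

lemma op_6_7 (v : Fin 3 → ℂ) (hv : v ≠ 0) (h1 : eval v (comps 6) = 0)
    (h2 : eval v (comps 7) = 0) : (∃ i, SamePoint v (tpt i)) ∨ ∃ j, SamePoint v (qpt j) := by
  have e : v = ![v 0, v 1, v 2] := by
    ext i
    fin_cases i <;> rfl
  rw [e] at hv ⊢
  simp only [comps, Matrix.cons_val, eval_lin, eval_quad] at h1 h2
  exact pair_6_7 hv (by linear_combination h1) (by linear_combination h2)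

lemma only_lt (a b : Fin 8) (hab : a < b) (v : Fin 3 → ℂ) (hv : v ≠ 0) (h1 : eval v (comps a) = 0)
    (h2 : eval v (comps b) = 0) : (∃ i, SamePoint v (tpt i)) ∨ ∃ j, SamePoint v (qpt j) := by
  fin_cases a
  · fin_cases b
    · exact absurd hab (by decide)
    · exact op_0_1 v hv h1 h2
    · exact op_0_2 v hv h1 h2
    · exact op_0_3 v hv h1 h2
    · exact op_0_4 v hv h1 h2
    · exact op_0_5 v hv h1 h2
    · exact op_0_6 v hv h1 h2
    · exact op_0_7 v hv h1 h2
  · fin_cases b
    · exact absurd hab (by decide)
    · exact absurd hab (by decide)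
    · exact op_1_2 v hv h1 h2
    · exact op_1_3 v hv h1 h2
    · exact op_1_4 v hv h1 h2
    · exact op_1_5 v hv h1 h2
    · exact op_1_6 v hv h1 h2
    · exact op_1_7 v hv h1 h2
  · fin_cases b
    · exact absurd hab (by decide)
    · exact absurd hab (by decide)
    · exact absurd hab (by decide)
    · exact op_2_3 v hv h1 h2
    · exact op_2_4 v hv h1 h2
    · exact op_2_5 v hv h1 h2
    · exact op_2_6 v hv h1 h2
    · exact op_2_7 v hv h1 h2
  · fin_cases b
    · exact absurd hab (by decide)
    · exact absurd hab (by decide)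
    · exact absurd hab (by decide)
    · exact absurd hab (by decide)
    · exact op_3_4 v hv h1 h2
    · exact op_3_5 v hv h1 h2
    · exact op_3_6 v hv h1 h2
    · exact op_3_7 v hv h1 h2
  · fin_cases b
    · exact absurd hab (by decide)
    · exact absurd hab (by decide)
    · exact absurd hab (by decide)
    · exact absurd hab (by decide)
    · exact absurd hab (by decide)
    · exact op_4_5 v hv h1 h2
    · exact op_4_6 v hv h1 h2
    · exact op_4_7 v hv h1 h2
  · fin_cases b
    · exact absurd hab (by decide)
    · exact absurd hab (by decide)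
    · exact absurd hab (by decide)
    · exact absurd hab (by decide)
    · exact absurd hab (by decide)
    · exact absurd hab (by decide)
    · exact op_5_6 v hv h1 h2
    · exact op_5_7 v hv h1 h2
  · fin_cases b
    · exact absurd hab (by decide)
    · exact absurd hab (by decide)
    · exact absurd hab (by decide)
    · exact absurd hab (by decide)
    · exact absurd hab (by decide)
    · exact absurd hab (by decide)
    · exact absurd hab (by decide)
    · exact op_6_7 v hv h1 h2
  · fin_cases b
    · exact absurd hab (by decide)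
    · exact absurd hab (by decide)
    · exact absurd hab (by decide)
    · exact absurd hab (by decide)
    · exact absurd hab (by decide)
    · exact absurd hab (by decide)
    · exact absurd hab (by decide)
    · exact absurd hab (by decide)

lemma trans_lt (j : Fin 9) (a b : Fin 8) (ha : a ∈ quad j) (hb : b ∈ quad j) (hab : a < b) :
    Transversal (comps a) (comps b) (qpt j) := by
  fin_cases j
  · fin_cases a
    · exact absurd ha (by decide)
    · exact absurd ha (by decide)
    · fin_cases b
      · exact absurd hb (by decide)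
      · exact absurd hb (by decide)
      · exact absurd hab (by decide)
      · exact tr_0_2_3
      · exact tr_0_2_4
      · exact tr_0_2_5
      · exact absurd hb (by decide)
      · exact absurd hb (by decide)
    · fin_cases b
      · exact absurd hb (by decide)
      · exact absurd hb (by decide)
      · exact absurd hab (by decide)
      · exact absurd hab (by decide)
      · exact tr_0_3_4
      · exact tr_0_3_5
      · exact absurd hb (by decide)
      · exact absurd hb (by decide)
    · fin_cases b
      · exact absurd hb (by decide)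
      · exact absurd hb (by decide)
      · exact absurd hab (by decide)
      · exact absurd hab (by decide)
      · exact absurd hab (by decide)
      · exact tr_0_4_5
      · exact absurd hb (by decide)
      · exact absurd hb (by decide)
    · fin_cases b
      · exact absurd hb (by decide)
      · exact absurd hb (by decide)
      · exact absurd hab (by decide)
      · exact absurd hab (by decide)
      · exact absurd hab (by decide)
      · exact absurd hab (by decide)
      · exact absurd hb (by decide)
      · exact absurd hb (by decide)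
    · exact absurd ha (by decide)
    · exact absurd ha (by decide)
  · fin_cases a
    · exact absurd ha (by decide)
    · exact absurd ha (by decide)
    · exact absurd ha (by decide)
    · exact absurd ha (by decide)
    · fin_cases b
      · exact absurd hb (by decide)
      · exact absurd hb (by decide)
      · exact absurd hb (by decide)
      · exact absurd hb (by decide)
      · exact absurd hab (by decide)
      · exact tr_1_4_5
      · exact tr_1_4_6
      · exact tr_1_4_7
    · fin_cases b
      · exact absurd hb (by decide)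
      · exact absurd hb (by decide)
      · exact absurd hb (by decide)
      · exact absurd hb (by decide)
      · exact absurd hab (by decide)
      · exact absurd hab (by decide)
      · exact tr_1_5_6
      · exact tr_1_5_7
    · fin_cases b
      · exact absurd hb (by decide)
      · exact absurd hb (by decide)
      · exact absurd hb (by decide)
      · exact absurd hb (by decide)
      · exact absurd hab (by decide)
      · exact absurd hab (by decide)
      · exact absurd hab (by decide)
      · exact tr_1_6_7
    · fin_cases b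
      · exact absurd hb (by decide)
      · exact absurd hb (by decide)
      · exact absurd hb (by decide)
      · exact absurd hb (by decide)
      · exact absurd hab (by decide)
      · exact absurd hab (by decide)
      · exact absurd hab (by decide)
      · exact absurd hab (by decide)
  · fin_cases a
    · exact absurd ha (by decide)
    · exact absurd ha (by decide)
    · exact absurd ha (by decide)
    · exact absurd ha (by decide)
    · fin_cases b
      · exact absurd hb (by decide)
      · exact absurd hb (by decide)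
      · exact absurd hb (by decide)
      · exact absurd hb (by decide)
      · exact absurd hab (by decide)
      · exact tr_2_4_5
      · exact tr_2_4_6
      · exact tr_2_4_7
    · fin_cases b
      · exact absurd hb (by decide)
      · exact absurd hb (by decide)
      · exact absurd hb (by decide)
      · exact absurd hb (by decide)
      · exact absurd hab (by decide)
      · exact absurd hab (by decide)
      · exact tr_2_5_6
      · exact tr_2_5_7
    · fin_cases b
      · exact absurd hb (by decide)
      · exact absurd hb (by decide)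
      · exact absurd hb (by decide)
      · exact absurd hb (by decide)
      · exact absurd hab (by decide)
      · exact absurd hab (by decide)
      · exact absurd hab (by decide)
      · exact tr_2_6_7
    · fin_cases b
      · exact absurd hb (by decide)
      · exact absurd hb (by decide)
      · exact absurd hb (by decide)
      · exact absurd hb (by decide)
      · exact absurd hab (by decide)
      · exact absurd hab (by decide)
      · exact absurd hab (by decide)
      · exact absurd hab (by decide)
  · fin_cases a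
    · exact absurd ha (by decide)
    · exact absurd ha (by decide)
    · exact absurd ha (by decide)
    · exact absurd ha (by decide)
    · fin_cases b
      · exact absurd hb (by decide)
      · exact absurd hb (by decide)
      · exact absurd hb (by decide)
      · exact absurd hb (by decide)
      · exact absurd hab (by decide)
      · exact tr_3_4_5
      · exact tr_3_4_6
      · exact tr_3_4_7
    · fin_cases b
      · exact absurd hb (by decide)
      · exact absurd hb (by decide)
      · exact absurd hb (by decide)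
      · exact absurd hb (by decide)
      · exact absurd hab (by decide)
      · exact absurd hab (by decide)
      · exact tr_3_5_6
      · exact tr_3_5_7
    · fin_cases b
      · exact absurd hb (by decide)
      · exact absurd hb (by decide)
      · exact absurd hb (by decide)
      · exact absurd hb (by decide)
      · exact absurd hab (by decide)
      · exact absurd hab (by decide)
      · exact absurd hab (by decide)
      · exact tr_3_6_7
    · fin_cases b
      · exact absurd hb (by decide)
      · exact absurd hb (by decide)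
      · exact absurd hb (by decide)
      · exact absurd hb (by decide)
      · exact absurd hab (by decide)
      · exact absurd hab (by decide)
      · exact absurd hab (by decide)
      · exact absurd hab (by decide)
  · fin_cases a
    · fin_cases b
      · exact absurd hab (by decide)
      · exact tr_4_0_1
      · exact absurd hb (by decide)
      · exact absurd hb (by decide)
      · exact absurd hb (by decide)
      · exact absurd hb (by decide)
      · exact tr_4_0_6
      · exact tr_4_0_7
    · fin_cases b
      · exact absurd hab (by decide)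
      · exact absurd hab (by decide)
      · exact absurd hb (by decide)
      · exact absurd hb (by decide)
      · exact absurd hb (by decide)
      · exact absurd hb (by decide)
      · exact tr_4_1_6
      · exact tr_4_1_7
    · exact absurd ha (by decide)
    · exact absurd ha (by decide)
    · exact absurd ha (by decide)
    · exact absurd ha (by decide)
    · fin_cases b
      · exact absurd hab (by decide)
      · exact absurd hab (by decide)
      · exact absurd hb (by decide)
      · exact absurd hb (by decide)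
      · exact absurd hb (by decide)
      · exact absurd hb (by decide)
      · exact absurd hab (by decide)
      · exact tr_4_6_7
    · fin_cases b
      · exact absurd hab (by decide)
      · exact absurd hab (by decide)
      · exact absurd hb (by decide)
      · exact absurd hb (by decide)
      · exact absurd hb (by decide)
      · exact absurd hb (by decide)
      · exact absurd hab (by decide)
      · exact absurd hab (by decide)
  · fin_cases a
    · exact absurd ha (by decide)
    · fin_cases b
      · exact absurd hb (by decide)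
      · exact absurd hab (by decide)
      · exact tr_5_1_2
      · exact absurd hb (by decide)
      · exact tr_5_1_4
      · exact absurd hb (by decide)
      · exact absurd hb (by decide)
      · exact tr_5_1_7
    · fin_cases b
      · exact absurd hb (by decide)
      · exact absurd hab (by decide)
      · exact absurd hab (by decide)
      · exact absurd hb (by decide)
      · exact tr_5_2_4
      · exact absurd hb (by decide)
      · exact absurd hb (by decide)
      · exact tr_5_2_7
    · exact absurd ha (by decide)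
    · fin_cases b
      · exact absurd hb (by decide)
      · exact absurd hab (by decide)
      · exact absurd hab (by decide)
      · exact absurd hb (by decide)
      · exact absurd hab (by decide)
      · exact absurd hb (by decide)
      · exact absurd hb (by decide)
      · exact tr_5_4_7
    · exact absurd ha (by decide)
    · exact absurd ha (by decide)
    · fin_cases b
      · exact absurd hb (by decide)
      · exact absurd hab (by decide)
      · exact absurd hab (by decide)
      · exact absurd hb (by decide)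
      · exact absurd hab (by decide)
      · exact absurd hb (by decide)
      · exact absurd hb (by decide)
      · exact absurd hab (by decide)
  · fin_cases a
    · exact absurd ha (by decide)
    · fin_cases b
      · exact absurd hb (by decide)
      · exact absurd hab (by decide)
      · exact absurd hb (by decide)
      · exact tr_6_1_3
      · exact tr_6_1_4
      · exact absurd hb (by decide)
      · exact tr_6_1_6
      · exact absurd hb (by decide)
    · exact absurd ha (by decide)
    · fin_cases b
      · exact absurd hb (by decide)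
      · exact absurd hab (by decide)
      · exact absurd hb (by decide)
      · exact absurd hab (by decide)
      · exact tr_6_3_4
      · exact absurd hb (by decide)
      · exact tr_6_3_6
      · exact absurd hb (by decide)
    · fin_cases b
      · exact absurd hb (by decide)
      · exact absurd hab (by decide)
      · exact absurd hb (by decide)
      · exact absurd hab (by decide)
      · exact absurd hab (by decide)
      · exact absurd hb (by decide)
      · exact tr_6_4_6
      · exact absurd hb (by decide)
    · exact absurd ha (by decide)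
    · fin_cases b
      · exact absurd hb (by decide)
      · exact absurd hab (by decide)
      · exact absurd hb (by decide)
      · exact absurd hab (by decide)
      · exact absurd hab (by decide)
      · exact absurd hb (by decide)
      · exact absurd hab (by decide)
      · exact absurd hb (by decide)
    · exact absurd ha (by decide)
  · fin_cases a
    · fin_cases b
      · exact absurd hab (by decide)
      · exact absurd hb (by decide)
      · exact tr_7_0_2
      · exact absurd hb (by decide)
      · exact absurd hb (by decide)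
      · exact tr_7_0_5
      · exact absurd hb (by decide)
      · exact tr_7_0_7
    · exact absurd ha (by decide)
    · fin_cases b
      · exact absurd hab (by decide)
      · exact absurd hb (by decide)
      · exact absurd hab (by decide)
      · exact absurd hb (by decide)
      · exact absurd hb (by decide)
      · exact tr_7_2_5
      · exact absurd hb (by decide)
      · exact tr_7_2_7
    · exact absurd ha (by decide)
    · exact absurd ha (by decide)
    · fin_cases b
      · exact absurd hab (by decide)
      · exact absurd hb (by decide)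
      · exact absurd hab (by decide)
      · exact absurd hb (by decide)
      · exact absurd hb (by decide)
      · exact absurd hab (by decide)
      · exact absurd hb (by decide)
      · exact tr_7_5_7
    · exact absurd ha (by decide)
    · fin_cases b
      · exact absurd hab (by decide)
      · exact absurd hb (by decide)
      · exact absurd hab (by decide)
      · exact absurd hb (by decide)
      · exact absurd hb (by decide)
      · exact absurd hab (by decide)
      · exact absurd hb (by decide)
      · exact absurd hab (by decide)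
  · fin_cases a
    · fin_cases b
      · exact absurd hab (by decide)
      · exact absurd hb (by decide)
      · exact absurd hb (by decide)
      · exact tr_8_0_3
      · exact absurd hb (by decide)
      · exact tr_8_0_5
      · exact tr_8_0_6
      · exact absurd hb (by decide)
    · exact absurd ha (by decide)
    · exact absurd ha (by decide)
    · fin_cases b
      · exact absurd hab (by decide)
      · exact absurd hb (by decide)
      · exact absurd hb (by decide)
      · exact absurd hab (by decide)
      · exact absurd hb (by decide)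
      · exact tr_8_3_5
      · exact tr_8_3_6
      · exact absurd hb (by decide)
    · exact absurd ha (by decide)
    · fin_cases b
      · exact absurd hab (by decide)
      · exact absurd hb (by decide)
      · exact absurd hb (by decide)
      · exact absurd hab (by decide)
      · exact absurd hb (by decide)
      · exact absurd hab (by decide)
      · exact tr_8_5_6
      · exact absurd hb (by decide)
    · fin_cases b
      · exact absurd hab (by decide)
      · exact absurd hb (by decide)
      · exact absurd hb (by decide)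
      · exact absurd hab (by decide)
      · exact absurd hb (by decide)
      · exact absurd hab (by decide)
      · exact absurd hab (by decide)
      · exact absurd hb (by decide)
    · exact absurd ha (by decide)

lemma pencil_2 : ∃ a b : ℂ, comps 2 * comps 6 = C a * (comps 0 * comps 4) + C b * (comps 1 * comps 5) := by
  refine ⟨((8 / 25) * Complex.I + (-6 / 25)), ((-7 / 25) * Complex.I + (24 / 25)), ?_⟩
  apply MvPolynomial.funext
  intro v
  simp only [comps, Matrix.cons_val, map_mul, map_add, eval_C, eval_lin, eval_quad]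

  linear_combination ((18 / 25) * v 0 ^ 2 * v 1 + (-32 / 25) * v 0 ^ 2 * v 2 + (18 / 25) * v 0 * v 1 ^ 2 + (-42 / 25) * v 0 * v 1 * v 2 + (-32 / 25) * v 0 * v 2 ^ 2 + (-28 / 25) * v 1 ^ 2 * v 2 + (-28 / 25) * v 1 * v 2 ^ 2) * I_sq1

lemma pencil_3 : ∃ a b : ℂ, comps 3 * comps 7 = C a * (comps 0 * comps 4) + C b * (comps 1 * comps 5) := by
  refine ⟨((4 / 25) * Complex.I + (-3 / 25)), ((-16 / 25) * Complex.I + (12 / 25)), ?_⟩
  apply MvPolynomial.funext
  intro v
  simp only [comps, Matrix.cons_val, map_mul, map_add, eval_C, eval_lin, eval_quad]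

  linear_combination ((-16 / 25) * v 0 ^ 2 * v 1 + (-16 / 25) * v 0 ^ 2 * v 2 + (-16 / 25) * v 0 * v 1 ^ 2 + (-96 / 25) * v 0 * v 1 * v 2 + (-16 / 25) * v 0 * v 2 ^ 2 + (-64 / 25) * v 1 ^ 2 * v 2 + (-64 / 25) * v 1 * v 2 ^ 2) * I_sq1

end Pool.Agent.Q82.CL
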